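import Mathlib
import Pool.Agent.KS6_44.KB.Y922Stm
import Pool.Agent.KS6_44.KB.S938J4

/-!
# KB-MEAN: the submean value property over discs (helper420)
-/

set_option autoImplicit false

namespace Pool.Agent.KS6_44.KB.Y420

open Pool.Agent.KS6_44.KB.Y922 Complex Metric MeasureTheory Set
open scoped Real

theorem t_MEAN : S_MEAN := by
  intro G p ρ ζ hp hρ hG hsub
  have hsub' : ball ζ ρ ⊆ ball 0 1 := ball_subset_closedBall.trans hsub
  have hc : ContinuousOn (fun u => ‖G u‖) (closedBall ζ ρ) := (hG.continuousOn.mono hsub).norm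
  have hcomp : IsCompact (closedBall ζ ρ) := isCompact_closedBall ζ ρ
  have hint : IntegrableOn (fun u => ‖G u‖) (closedBall ζ ρ) :=
    hc.integrableOn_compact hcomp
  have hp0 : 0 ≤ p := zero_le_one.trans hp
  have hcp : ContinuousOn (fun u => ‖G u‖ ^ p) (closedBall ζ ρ) :=
    hc.rpow_const (fun _ _ => Or.inr hp0)
  have hintp : IntegrableOn (fun u => ‖G u‖ ^ p) (closedBall ζ ρ) :=
    hcp.integrableOn_compact hcomp
  have hvol : volume.real (closedBall ζ ρ) = π * ρ ^ 2 := by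
    rw [Measure.real, Complex.volume_closedBall, ENNReal.toReal_mul, ENNReal.toReal_pow,
      ENNReal.toReal_ofReal hρ.le]
    simp [mul_comm]
  have hV : 0 < π * ρ ^ 2 := by positivity
  -- the mean value inequality for the norm
  have hm : π * ρ ^ 2 * ‖G ζ‖ ≤ ∫ u in closedBall ζ ρ, ‖G u‖ := by
    have h1 := Pool.Agent.KS6_44.KB.Split938.J4.mean_disc' G ζ ρ hρ (hG.mono hsub')
    have h2 : ∫⁻ w in ball ζ ρ, ENNReal.ofReal ‖G w‖ ≤
        ∫⁻ w in closedBall ζ ρ, ENNReal.ofReal ‖G w‖ := lintegral_mono_set ball_subset_closedBall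
    rw [← ofReal_integral_eq_lintegral_ofReal hint
      (Filter.Eventually.of_forall fun _ => norm_nonneg _)] at h2
    have h3 := h1.trans h2
    rwa [ENNReal.ofReal_le_ofReal_iff (integral_nonneg fun _ => norm_nonneg _)] at h3
  have hav : ‖G ζ‖ ≤ ⨍ u in closedBall ζ ρ, ‖G u‖ := by
    rw [setAverage_eq, hvol, smul_eq_mul, ← div_eq_inv_mul, le_div_iff₀ hV]
    linarith
  have h0 : volume (closedBall ζ ρ) ≠ 0 := by
    intro h
    rw [Measure.real, h, ENNReal.toReal_zero] at hvol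
    exact hV.ne hvol
  have htop : volume (closedBall ζ ρ) ≠ ⊤ := hcomp.measure_lt_top.ne
  have hJ := ConvexOn.map_set_average_le (μ := (volume : Measure ℂ)) (t := closedBall ζ ρ)
    (f := fun u => ‖G u‖) (g := fun x : ℝ => x ^ p) (s := Ici 0) (convexOn_rpow hp)
    (continuousOn_id.rpow_const fun _ _ => Or.inr hp0) isClosed_Ici h0 htop
    (Filter.Eventually.of_forall fun _ => norm_nonneg _) hint hintp
  have h4 : ‖G ζ‖ ^ p ≤ ⨍ u in closedBall ζ ρ, ‖G u‖ ^ p :=
    (Real.rpow_le_rpow (norm_nonneg _) hav hp0).trans hJ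
  rw [setAverage_eq, hvol, smul_eq_mul, ← div_eq_inv_mul, le_div_iff₀ hV] at h4
  linarith

end Pool.Agent.KS6_44.KB.Y420
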