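import Pool.Agent.KS6_44.KB.Y922Stm
import Pool.Agent.KS6_44.KB.Y420Mean

/-!
Smallness of a holomorphic function with `N` zeros (adapted from the one zero case, project KB of
the library).
-/

set_option autoImplicit false

namespace Pool.Agent.KS6_44.KB.N

open Complex Metric MeasureTheory Set Pool.Agent.KS6_44.KB.Y922
open scoped Real ComplexConjugate Topology

theorem ident (s : ℝ) (u b : ℂ) :
    s ^ 2 * ‖u - b‖ ^ 2 - ‖((s ^ 2 : ℝ) : ℂ) - conj b * u‖ ^ 2 =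
      (‖u‖ ^ 2 - s ^ 2) * (s ^ 2 - ‖b‖ ^ 2) := by
  rw [← Complex.normSq_eq_norm_sq, ← Complex.normSq_eq_norm_sq, ← Complex.normSq_eq_norm_sq,
    ← Complex.normSq_eq_norm_sq, Complex.normSq_apply, Complex.normSq_apply, Complex.normSq_apply,
    Complex.normSq_apply]
  simp only [Complex.sub_re, Complex.sub_im, Complex.mul_re, Complex.mul_im, Complex.conj_re,
    Complex.conj_im, Complex.ofReal_re, Complex.ofReal_im]
  ring

/-- The polynomial with the zeros `L`. -/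
noncomputable def PL (L : List ℂ) (z : ℂ) : ℂ := (L.map fun b => z - b).prod

/-- The reflected factor. -/
noncomputable def S1 (s : ℝ) (b z : ℂ) : ℂ := (((s ^ 2 : ℝ) : ℂ) - conj b * z) / (s : ℂ)

/-- The reflected polynomial. -/
noncomputable def SL (s : ℝ) (L : List ℂ) (z : ℂ) : ℂ := (L.map fun b => S1 s b z).prod

theorem PL_nil (z : ℂ) : PL [] z = 1 := rfl
theorem PL_cons (b : ℂ) (L : List ℂ) (z : ℂ) : PL (b :: L) z = (z - b) * PL L z := by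
  simp [PL]
theorem SL_nil (s : ℝ) (z : ℂ) : SL s [] z = 1 := rfl
theorem SL_cons (s : ℝ) (b : ℂ) (L : List ℂ) (z : ℂ) : SL s (b :: L) z = S1 s b z * SL s L z := by
  simp [SL]

theorem PL_diff (L : List ℂ) : Differentiable ℂ (PL L) := by
  induction L with
  | nil => exact (differentiable_const (1 : ℂ))
  | cons b L ih =>
    have : PL (b :: L) = fun z => (z - b) * PL L z := funext (PL_cons b L)
    rw [this]
    exact (differentiable_id.sub_const b).mul ih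

theorem SL_diff (s : ℝ) (L : List ℂ) : Differentiable ℂ (SL s L) := by
  induction L with
  | nil => exact (differentiable_const (1 : ℂ))
  | cons b L ih =>
    have : SL s (b :: L) = fun z => S1 s b z * SL s L z := funext (SL_cons s b L)
    rw [this]
    refine Differentiable.mul ?_ ih
    unfold S1
    fun_prop

theorem norm_S1 {s : ℝ} (hs : 0 < s) (b z : ℂ) :
    s ^ 2 * ‖S1 s b z‖ ^ 2 = ‖((s ^ 2 : ℝ) : ℂ) - conj b * z‖ ^ 2 := by
  unfold S1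
  rw [norm_div, Complex.norm_real, Real.norm_of_nonneg hs.le]
  field_simp

theorem le_of_sq {x y : ℝ} (hy : 0 ≤ y) (h : x ^ 2 ≤ y ^ 2) : x ≤ y :=
  le_of_sq_le_sq h hy

theorem S1_le {s : ℝ} (hs : 0 < s) {b u : ℂ} (hb : ‖b‖ ≤ s) (hu : s ≤ ‖u‖) :
    ‖S1 s b u‖ ≤ ‖u - b‖ := by
  apply le_of_sq (norm_nonneg _)
  have h1 := norm_S1 hs b u
  have h3 := ident s u b
  have h4 : 0 ≤ (‖u‖ ^ 2 - s ^ 2) * (s ^ 2 - ‖b‖ ^ 2) := by
    have e1 : s ^ 2 ≤ ‖u‖ ^ 2 := pow_le_pow_left₀ hs.le hu 2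
    have e2 : ‖b‖ ^ 2 ≤ s ^ 2 := pow_le_pow_left₀ (norm_nonneg b) hb 2
    exact mul_nonneg (by linarith) (by linarith)
  have hs2 : 0 < s ^ 2 := by positivity
  have h5 : s ^ 2 * ‖S1 s b u‖ ^ 2 ≤ s ^ 2 * ‖u - b‖ ^ 2 := by rw [h1]; linarith
  exact le_of_mul_le_mul_left h5 hs2

theorem le_S1 {ε : ℝ} (hε : 0 < ε) (hε2 : ε ≤ 1 / 2) {b z : ℂ} (hb : ‖b‖ ≤ 1 - ε)
    (hz : ‖z‖ ≤ 1 - ε / 2) :
    ‖z - b‖ ≤ Real.exp (-(ε ^ 2 / 60)) * ‖S1 (1 - ε / 4) b z‖ := by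
  set s : ℝ := 1 - ε / 4 with hs
  have hs0 : 0 < s := by rw [hs]; linarith
  have hs2 : 0 < s ^ 2 := by positivity
  have hbn : ‖b‖ < 1 := by linarith
  have hb0 : 0 ≤ ‖b‖ := norm_nonneg b
  have hsb : ε ≤ s ^ 2 - ‖b‖ ^ 2 := by
    have : ‖b‖ ^ 2 ≤ (1 - ε) ^ 2 := pow_le_pow_left₀ hb0 hb 2
    rw [hs]
    nlinarith
  apply le_of_sq (by positivity)
  have h1 := norm_S1 hs0 b z
  have h3 := ident s z b
  have hz0 : 0 ≤ ‖z‖ := norm_nonneg z
  have hsz : 13 / 32 * ε ≤ s ^ 2 - ‖z‖ ^ 2 := by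
    have : ‖z‖ ^ 2 ≤ (1 - ε / 2) ^ 2 := pow_le_pow_left₀ hz0 hz 2
    rw [hs]
    nlinarith
  have h4 : 13 / 32 * ε * ε ≤ (s ^ 2 - ‖z‖ ^ 2) * (s ^ 2 - ‖b‖ ^ 2) :=
    mul_le_mul hsz hsb hε.le (by linarith)
  have hK : ‖((s ^ 2 : ℝ) : ℂ) - conj b * z‖ ^ 2 ≤ 4 := by
    have h5 : ‖((s ^ 2 : ℝ) : ℂ) - conj b * z‖ ≤ 2 := by
      refine (norm_sub_le _ _).trans ?_
      rw [norm_mul, Complex.norm_conj, Complex.norm_real, Real.norm_of_nonneg hs2.le]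
      have h6 : s ^ 2 ≤ 1 := by
        rw [hs]
        nlinarith
      have h7 : ‖b‖ * ‖z‖ ≤ 1 * 1 := mul_le_mul hbn.le (by linarith) hz0 zero_le_one
      linarith
    have := pow_le_pow_left₀ (norm_nonneg _) h5 2
    linarith
  have h5 : s ^ 2 * ‖z - b‖ ^ 2 ≤
      (1 - ε ^ 2 / 30) * ‖((s ^ 2 : ℝ) : ℂ) - conj b * z‖ ^ 2 := by
    have h6 : ε ^ 2 / 30 * ‖((s ^ 2 : ℝ) : ℂ) - conj b * z‖ ^ 2 ≤ ε ^ 2 / 30 * 4 :=
      mul_le_mul_of_nonneg_left hK (by positivity)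
    nlinarith
  have h6 : 1 - ε ^ 2 / 30 ≤ Real.exp (-(ε ^ 2 / 60)) ^ 2 := by
    rw [← Real.exp_nat_mul]
    have := Real.add_one_le_exp (((2 : ℕ) : ℝ) * -(ε ^ 2 / 60))
    push_cast at this ⊢
    linarith
  have h7 : s ^ 2 * ‖z - b‖ ^ 2 ≤ s ^ 2 * (Real.exp (-(ε ^ 2 / 60)) * ‖S1 s b z‖) ^ 2 := by
    have e2 : s ^ 2 * (Real.exp (-(ε ^ 2 / 60)) * ‖S1 s b z‖) ^ 2 =
        Real.exp (-(ε ^ 2 / 60)) ^ 2 * (s ^ 2 * ‖S1 s b z‖ ^ 2) := by ring
    rw [e2, h1]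
    exact h5.trans (mul_le_mul_of_nonneg_right h6 (by positivity))
  exact le_of_mul_le_mul_left h7 hs2

theorem SL_le {s : ℝ} (hs : 0 < s) (L : List ℂ) (hL : ∀ b ∈ L, ‖b‖ ≤ s) {u : ℂ} (hu : s ≤ ‖u‖) :
    ‖SL s L u‖ ≤ ‖PL L u‖ := by
  induction L with
  | nil => rw [SL_nil, PL_nil]
  | cons b L ih =>
    rw [SL_cons, PL_cons, norm_mul, norm_mul]
    exact mul_le_mul (S1_le hs (hL b (by simp)) hu) (ih fun c hc => hL c (by simp [hc]))
      (norm_nonneg _) (norm_nonneg _)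

theorem PL_le {ε : ℝ} (hε : 0 < ε) (hε2 : ε ≤ 1 / 2) (L : List ℂ) (hL : ∀ b ∈ L, ‖b‖ ≤ 1 - ε)
    {z : ℂ} (hz : ‖z‖ ≤ 1 - ε / 2) :
    ‖PL L z‖ ≤ Real.exp (-(ε ^ 2 / 60)) ^ L.length * ‖SL (1 - ε / 4) L z‖ := by
  induction L with
  | nil => simp [SL_nil, PL_nil]
  | cons b L ih =>
    rw [SL_cons, PL_cons, norm_mul, norm_mul, List.length_cons, pow_succ]
    calc ‖z - b‖ * ‖PL L z‖ ≤ (Real.exp (-(ε ^ 2 / 60)) * ‖S1 (1 - ε / 4) b z‖) *
          (Real.exp (-(ε ^ 2 / 60)) ^ L.length * ‖SL (1 - ε / 4) L z‖) :=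
          mul_le_mul (le_S1 hε hε2 (hL b (by simp)) hz) (ih fun c hc => hL c (by simp [hc]))
            (norm_nonneg _) (by positivity)
      _ = _ := by ring

/-- A function with `L.length` zeros in `|z| ≤ 1 - ε` is small in `|z| ≤ 1 - ε / 2`. -/
theorem bla_n {ε p : ℝ} {g g1 : ℂ → ℂ} (L : List ℂ) (hε : 0 < ε) (hε2 : ε ≤ 1 / 2) (hp : 1 ≤ p)
    (hg : DifferentiableOn ℂ g (ball 0 1)) (hg1 : DifferentiableOn ℂ g1 (ball 0 1))
    (hL : ∀ b ∈ L, ‖b‖ ≤ 1 - ε) (hgg : ∀ z ∈ ball (0 : ℂ) 1, g z = PL L z * g1 z) (z : ℂ)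
    (hz : ‖z‖ ≤ 1 - ε / 2) :
    ‖g z‖ ^ p ≤ Real.exp (-(L.length * (p * ε ^ 2 / 60))) * (256 / ε ^ 2) *
      ∫ u in Rp ε, ‖g u‖ ^ p := by
  set s : ℝ := 1 - ε / 4 with hs
  have hs0 : 0 < s := by rw [hs]; linarith
  set G : ℂ → ℂ := fun z => SL s L z * g1 z with hG
  have hGd : DifferentiableOn ℂ G (ball 0 1) := (SL_diff s L).differentiableOn.mul hg1
  have hball : ∀ u : ℂ, ‖u‖ < 1 → u ∈ ball (0 : ℂ) 1 := fun u hu => by rwa [mem_ball_zero_iff]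
  have hGg : ∀ u ∈ Rp ε, ‖G u‖ ≤ ‖g u‖ := by
    intro u hu
    rw [hgg u (hball u (by linarith [hu.2])), hG, norm_mul, norm_mul]
    exact mul_le_mul_of_nonneg_right
      (SL_le hs0 L (fun b hb => (hL b hb).trans (by rw [hs]; linarith)) hu.1) (norm_nonneg _)
  have hgz : ‖g z‖ ≤ Real.exp (-(ε ^ 2 / 60)) ^ L.length * ‖G z‖ := by
    rw [hgg z (hball z (by linarith)), hG, norm_mul, norm_mul, ← mul_assoc]
    exact mul_le_mul_of_nonneg_right (PL_le hε hε2 L hL hz) (norm_nonneg _)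
  obtain ⟨ζ, hζ, hmax⟩ : ∃ ζ : ℂ, ‖ζ‖ = 1 - 3 * ε / 16 ∧ ‖G z‖ ≤ ‖G ζ‖ := by
    have hr : 0 < 1 - 3 * ε / 16 := by linarith
    have hdc : DiffContOnCl ℂ G (ball 0 (1 - 3 * ε / 16)) := by
      apply DifferentiableOn.diffContOnCl
      rw [closure_ball _ hr.ne']
      exact hGd.mono (closedBall_subset_ball (by linarith))
    obtain ⟨ζ, h1, h2⟩ := Complex.exists_mem_frontier_isMaxOn_norm (isBounded_ball)
      ⟨0, mem_ball_self hr⟩ hdc
    rw [frontier_ball _ hr.ne', mem_sphere_zero_iff_norm] at h1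
    refine ⟨ζ, h1, ?_⟩
    have h3 : z ∈ closure (ball (0 : ℂ) (1 - 3 * ε / 16)) := by
      rw [closure_ball _ hr.ne', mem_closedBall_zero_iff]
      linarith
    exact h2 h3
  have hsub : closedBall ζ (ε / 16) ⊆ Rp ε := by
    intro u hu
    rw [mem_closedBall, dist_eq_norm] at hu
    have h1 : ‖u‖ ≤ ‖ζ‖ + ‖u - ζ‖ := by
      have := norm_add_le ζ (u - ζ)
      rwa [add_sub_cancel] at this
    have h2 : ‖ζ‖ ≤ ‖u‖ + ‖u - ζ‖ := by
      have := norm_sub_le u (u - ζ)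
      rwa [sub_sub_cancel] at this
    constructor <;> linarith
  have hRp : Rp ε ⊆ ball 0 1 := by
    intro u hu
    rw [mem_ball_zero_iff]
    linarith [hu.2]
  have hmean' := Y420.t_MEAN G p (ε / 16) ζ hp (by linarith) hGd (hsub.trans hRp)
  have hcpt : IsCompact (Rp ε) := by
    apply Metric.isCompact_of_isClosed_isBounded
    · exact (isClosed_le continuous_const continuous_norm).inter
        (isClosed_le continuous_norm continuous_const)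
    · exact isBounded_ball.subset hRp
  have hp0 : 0 ≤ p := by linarith
  have hint : ∀ h : ℂ → ℂ, DifferentiableOn ℂ h (ball 0 1) →
      IntegrableOn (fun u => ‖h u‖ ^ p) (Rp ε) := by
    intro h hh
    apply ContinuousOn.integrableOn_compact hcpt
    exact ((hh.continuousOn.mono hRp).norm).rpow_const (fun _ _ => Or.inr hp0)
  have hI1 : ∫ u in closedBall ζ (ε / 16), ‖G u‖ ^ p ≤ ∫ u in Rp ε, ‖G u‖ ^ p := by
    apply setIntegral_mono_set (hint _ hGd)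
    · exact Filter.Eventually.of_forall fun u => Real.rpow_nonneg (norm_nonneg _) _
    · exact hsub.eventuallyLE
  have hI2 : ∫ u in Rp ε, ‖G u‖ ^ p ≤ ∫ u in Rp ε, ‖g u‖ ^ p :=
    setIntegral_mono_on (hint _ hGd) (hint _ hg) hcpt.isClosed.measurableSet
      fun u hu => Real.rpow_le_rpow (norm_nonneg _) (hGg u hu) hp0
  have hIn : 0 ≤ ∫ u in Rp ε, ‖g u‖ ^ p :=
    setIntegral_nonneg hcpt.isClosed.measurableSet fun u _ => Real.rpow_nonneg (norm_nonneg _) _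
  set J : ℝ := ∫ u in Rp ε, ‖g u‖ ^ p with hJ
  have hζp : ‖G ζ‖ ^ p ≤ 256 / ε ^ 2 * J := by
    have h1 : π * (ε / 16) ^ 2 * ‖G ζ‖ ^ p ≤ J := hmean'.trans (hI1.trans hI2)
    have h2 : 0 ≤ ‖G ζ‖ ^ p := Real.rpow_nonneg (norm_nonneg _) _
    have h3 : 1 ≤ π := by linarith [Real.pi_gt_three]
    have h4 : (ε / 16) ^ 2 * ‖G ζ‖ ^ p ≤ J := by
      have h5 : 0 ≤ (ε / 16) ^ 2 * ‖G ζ‖ ^ p := by positivity
      nlinarith
    have h6 : 256 / ε ^ 2 * ((ε / 16) ^ 2 * ‖G ζ‖ ^ p) = ‖G ζ‖ ^ p := by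
      field_simp
      ring
    rw [← h6]
    exact mul_le_mul_of_nonneg_left h4 (by positivity)
  have hexp : (Real.exp (-(ε ^ 2 / 60)) ^ L.length) ^ p =
      Real.exp (-(L.length * (p * ε ^ 2 / 60))) := by
    rw [← Real.exp_nat_mul, ← Real.exp_mul]
    congr 1
    ring
  calc ‖g z‖ ^ p ≤ (Real.exp (-(ε ^ 2 / 60)) ^ L.length * ‖G z‖) ^ p :=
        Real.rpow_le_rpow (norm_nonneg _) hgz hp0
    _ = Real.exp (-(L.length * (p * ε ^ 2 / 60))) * ‖G z‖ ^ p := by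
        rw [Real.mul_rpow (by positivity) (norm_nonneg _), hexp]
    _ ≤ Real.exp (-(L.length * (p * ε ^ 2 / 60))) * (256 / ε ^ 2 * J) := by
        apply mul_le_mul_of_nonneg_left _ (Real.exp_pos _).le
        exact (Real.rpow_le_rpow (norm_nonneg _) hmax hp0).trans hζp
    _ = _ := by ring

/-- Splitting off the zeros. -/
theorem factor {ε : ℝ} (hε : 0 < ε) (hε2 : ε ≤ 1 / 2) {F : ℂ → ℂ}
    (hF : DifferentiableOn ℂ F (ball 0 1)) (hF0 : ∃ z ∈ ball (0 : ℂ) 1, F z ≠ 0) :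
    ∃ (L : List ℂ) (F1 : ℂ → ℂ), (∀ b ∈ L, ‖b‖ ≤ 1 - ε) ∧ DifferentiableOn ℂ F1 (ball 0 1) ∧
      (∀ z ∈ ball (0 : ℂ) 1, F z = PL L z * F1 z) ∧ ∀ z : ℂ, ‖z‖ ≤ 1 - ε → F1 z ≠ 0 := by
  -- a point near the origin where `F` does not vanish
  obtain ⟨z0, hz0, hz0F⟩ : ∃ z : ℂ, ‖z‖ ≤ 1 - ε / 2 ∧ F z ≠ 0 := by
    by_contra hcon
    push Not at hcon
    have han : AnalyticOnNhd ℂ F (ball 0 1) := hF.analyticOnNhd isOpen_ball
    have hev : F =ᶠ[𝓝 (0 : ℂ)] 0 := by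
      filter_upwards [ball_mem_nhds (0 : ℂ) (show (0 : ℝ) < 1 / 2 by norm_num)] with z hz
      rw [mem_ball_zero_iff] at hz
      exact hcon z (by linarith)
    have := han.eqOn_zero_of_preconnected_of_eventuallyEq_zero
      (convex_ball (0 : ℂ) 1).isPreconnected (mem_ball_self one_pos) hev
    obtain ⟨z, hz, hzF⟩ := hF0
    exact hzF (this hz)
  set S : Set ℕ := {n | ∃ (L : List ℂ) (F1 : ℂ → ℂ), L.length = n ∧ (∀ b ∈ L, ‖b‖ ≤ 1 - ε) ∧
    DifferentiableOn ℂ F1 (ball 0 1) ∧ ∀ z ∈ ball (0 : ℂ) 1, F z = PL L z * F1 z} with hS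
  have h0 : S.Nonempty := ⟨0, [], F, rfl, by simp, hF, fun z _ => by rw [PL_nil, one_mul]⟩
  have hbd : BddAbove S := by
    set K : ℝ := 256 / ε ^ 2 * ∫ u in Rp ε, ‖F u‖ ^ (1 : ℝ) with hK
    have hK0 : 0 ≤ K := by
      have : 0 ≤ ∫ u in Rp ε, ‖F u‖ ^ (1 : ℝ) :=
        integral_nonneg (fun u => Real.rpow_nonneg (norm_nonneg _) _)
      positivity
    have hlim : Filter.Tendsto (fun n : ℕ => Real.exp (-(n * (1 * ε ^ 2 / 60))) * K) Filter.atTop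
        (𝓝 (0 * K)) := by
      apply Filter.Tendsto.mul_const
      apply Real.tendsto_exp_atBot.comp
      apply Filter.tendsto_neg_atTop_atBot.comp
      exact Filter.Tendsto.atTop_mul_const (by positivity) tendsto_natCast_atTop_atTop
    rw [zero_mul] at hlim
    have hpos : 0 < ‖F z0‖ := norm_pos_iff.2 hz0F
    obtain ⟨n0, hn0⟩ := Filter.eventually_atTop.1 (hlim.eventually (gt_mem_nhds hpos))
    refine ⟨n0, ?_⟩
    rintro n ⟨L, F1, hLn, hL, hF1, hFF⟩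
    by_contra hcon
    push Not at hcon
    have h1 := bla_n L hε hε2 le_rfl hF hF1 hL hFF z0 hz0
    have h2 := hn0 n hcon.le
    rw [hLn, Real.rpow_one, mul_assoc] at h1
    linarith
  obtain ⟨L, F1, hLn, hL, hF1, hFF⟩ := Nat.sSup_mem h0 hbd
  refine ⟨L, F1, hL, hF1, hFF, ?_⟩
  intro b hb hb0
  have hb1 : ‖b‖ < 1 := by linarith
  have hmem : sSup S + 1 ∈ S := by
    refine ⟨b :: L, dslope F1 b, by simp [hLn], ?_, ?_, ?_⟩
    · intro c hc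
      rcases List.mem_cons.1 hc with rfl | hc
      · exact hb
      · exact hL c hc
    · exact (Complex.differentiableOn_dslope (isOpen_ball.mem_nhds (by simpa using hb1))).2 hF1
    · intro z hz
      have h := sub_smul_dslope F1 b z
      rw [hb0, sub_zero, smul_eq_mul] at h
      rw [hFF z hz, PL_cons, ← h]
      ring
  have := le_csSup hbd hmem
  omega

end Pool.Agent.KS6_44.KB.N
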