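import Pool.Agent.KS6_44.KB.Harn

/-!
The quotient of two holomorphic functions which is bounded by one in an annulus: comparison of its
values in terms of the number of the zeros of the denominator.
-/

set_option autoImplicit false

namespace Pool.Agent.KS6_44.KB.N

open Complex Metric Set Pool.Agent.KS6_44.KB.Y922
open scoped Real ComplexConjugate Topology

theorem Ann_open (ε : ℝ) : IsOpen (Ann ε) :=
  (isOpen_lt continuous_const continuous_norm).inter (isOpen_lt continuous_norm continuous_const)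

theorem Ann_preconn {ε : ℝ} (hε2 : ε ≤ 1 / 2) : IsPreconnected (Ann ε) := by
  have h : Ann ε = (fun q : ℝ × ℝ => ((q.1 : ℝ) : ℂ) * Complex.exp ((q.2 : ℝ) * Complex.I)) ''
      (Ioo (1 - ε) 1 ×ˢ univ) := by
    ext z
    constructor
    · intro hz
      exact ⟨(‖z‖, Complex.arg z), ⟨hz, trivial⟩, Complex.norm_mul_exp_arg_mul_I z⟩
    · rintro ⟨q, ⟨hq, -⟩, rfl⟩
      have h0 : 0 < q.1 := by linarith [hq.1]
      have h1 : ‖((q.1 : ℝ) : ℂ) * Complex.exp ((q.2 : ℝ) * Complex.I)‖ = q.1 := by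
        rw [norm_mul, Complex.norm_exp_ofReal_mul_I, mul_one, Complex.norm_real,
          Real.norm_of_nonneg h0.le]
      exact ⟨by rw [h1]; exact hq.1, by rw [h1]; exact hq.2⟩
  rw [h]
  apply IsPreconnected.image
  · exact (isPreconnected_Ioo).prod isPreconnected_univ
  · fun_prop

theorem PL_ne {ε : ℝ} {L : List ℂ} (hL : ∀ b ∈ L, ‖b‖ ≤ 1 - ε) {z : ℂ} (hz : z ∈ Ann ε) :
    PL L z ≠ 0 := by
  induction L with
  | nil => rw [PL_nil]; exact one_ne_zero
  | cons b L ih =>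
    rw [PL_cons]
    refine mul_ne_zero (fun h => ?_) (ih fun c hc => hL c (by simp [hc]))
    have h1 := hL b (by simp)
    have h2 := hz.1
    rw [sub_eq_zero.1 h] at h2
    linarith

theorem PL_upper {L : List ℂ} (hL : ∀ b ∈ L, ‖b‖ ≤ 1) {z : ℂ} (hz : ‖z‖ ≤ 1) :
    ‖PL L z‖ ≤ 2 ^ L.length := by
  induction L with
  | nil => simp [PL_nil]
  | cons b L ih =>
    rw [PL_cons, norm_mul, List.length_cons, pow_succ, mul_comm ((2 : ℝ) ^ L.length)]
    refine mul_le_mul ((norm_sub_le _ _).trans ?_) (ih fun c hc => hL c (by simp [hc]))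
      (norm_nonneg _) (by norm_num)
    linarith [hL b (by simp)]

theorem PL_lower {L : List ℂ} {z : ℂ} {c : ℝ} (hc : 0 ≤ c) (hL : ∀ b ∈ L, c ≤ ‖z - b‖) :
    c ^ L.length ≤ ‖PL L z‖ := by
  induction L with
  | nil => simp [PL_nil]
  | cons b L ih =>
    rw [PL_cons, norm_mul, List.length_cons, pow_succ, mul_comm (c ^ L.length)]
    exact mul_le_mul (hL b (by simp)) (ih fun c hc => hL c (by simp [hc])) (by positivity)
      (norm_nonneg _)

/-- The logarithm of the polynomial divided by `z ^ N`. -/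
noncomputable def Lam (L : List ℂ) (z : ℂ) : ℂ := (L.map fun b => Complex.log (1 - b / z)).sum

theorem Lam_cons (b : ℂ) (L : List ℂ) (z : ℂ) :
    Lam (b :: L) z = Complex.log (1 - b / z) + Lam L z := by
  simp [Lam]

theorem re_pos {ε : ℝ} (hε2 : ε ≤ 1 / 2) {b z : ℂ} (hb : ‖b‖ ≤ 1 - ε) (hz : z ∈ Ann ε) :
    0 < (1 - b / z).re := by
  have hz0 : 0 < ‖z‖ := by linarith [hz.1]
  have h1 : ‖b / z‖ < 1 := by
    rw [norm_div, div_lt_one hz0]
    linarith [hz.1]
  have h2 := Complex.re_le_norm (b / z)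
  rw [Complex.sub_re, Complex.one_re]
  linarith

theorem ne_zero_of_re {z : ℂ} (h : 0 < z.re) : z ≠ 0 := by
  rintro rfl
  simp at h

theorem z_ne {ε : ℝ} (hε2 : ε ≤ 1 / 2) {z : ℂ} (hz : z ∈ Ann ε) : z ≠ 0 := by
  rintro rfl
  have := hz.1
  rw [norm_zero] at this
  linarith

theorem exp_Lam {ε : ℝ} (hε2 : ε ≤ 1 / 2) {L : List ℂ} (hL : ∀ b ∈ L, ‖b‖ ≤ 1 - ε) {z : ℂ}
    (hz : z ∈ Ann ε) : Complex.exp (Lam L z) * z ^ L.length = PL L z := by
  induction L with
  | nil => simp [Lam, PL_nil]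
  | cons b L ih =>
    have h1 := ih fun c hc => hL c (by simp [hc])
    rw [PL_cons, Lam_cons, Complex.exp_add, List.length_cons,
      Complex.exp_log (ne_zero_of_re (re_pos hε2 (hL b (by simp)) hz)), ← h1, pow_succ]
    have := z_ne hε2 hz
    field_simp

theorem Lam_diff {ε : ℝ} (hε2 : ε ≤ 1 / 2) {L : List ℂ} (hL : ∀ b ∈ L, ‖b‖ ≤ 1 - ε) {z : ℂ}
    (hz : z ∈ Ann ε) : DifferentiableAt ℂ (Lam L) z := by
  induction L with
  | nil => exact differentiableAt_const (0 : ℂ)
  | cons b L ih =>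
    have h1 := ih fun c hc => hL c (by simp [hc])
    have h2 : Lam (b :: L) = fun z => Complex.log (1 - b / z) + Lam L z := funext (Lam_cons b L)
    rw [h2]
    refine DifferentiableAt.add ?_ h1
    apply DifferentiableAt.clog
    · exact (differentiableAt_const _).sub
        ((differentiableAt_const _).div differentiableAt_id (z_ne hε2 hz))
    · exact Or.inl (re_pos hε2 (hL b (by simp)) hz)

theorem log_im {z : ℂ} (h : 0 < z.re) : |(Complex.log z).im| ≤ π / 2 := by
  rw [Complex.log_im]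
  exact (Complex.abs_arg_le_pi_div_two_iff).2 h.le

theorem Lam_im {ε : ℝ} (hε2 : ε ≤ 1 / 2) {L : List ℂ} (hL : ∀ b ∈ L, ‖b‖ ≤ 1 - ε) {z : ℂ}
    (hz : z ∈ Ann ε) : |(Lam L z).im| ≤ L.length * (π / 2) := by
  induction L with
  | nil => simp [Lam]
  | cons b L ih =>
    have h1 := ih fun c hc => hL c (by simp [hc])
    have h2 := log_im (re_pos hε2 (hL b (by simp)) hz)
    rw [Lam_cons, Complex.add_im, List.length_cons]
    push_cast
    refine (abs_add_le _ _).trans ?_
    linarith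

/-- The comparison for a unimodular `u`. -/
theorem comp_u {ε : ℝ} {f g g1 w : ℂ → ℂ} {L : List ℂ} (hε : 0 < ε) (hε2 : ε ≤ 1 / 2)
    (hf : DifferentiableOn ℂ f (ball 0 1)) (hg1 : DifferentiableOn ℂ g1 (ball 0 1))
    (hL : ∀ b ∈ L, ‖b‖ ≤ 1 - ε) (hgg : ∀ z ∈ ball (0 : ℂ) 1, g z = PL L z * g1 z)
    (hg1n : ∀ z : ℂ, ‖z‖ ≤ 1 - ε → g1 z ≠ 0) (hw : DifferentiableOn ℂ w (Ann ε))
    (hw1 : ∀ z ∈ Ann ε, ‖w z‖ < 1) (hfw : ∀ z ∈ Ann ε, f z = w z * g z) {u : ℂ} (hu : ‖u‖ = 1)
    {z₁ z₂ : ℂ} (hz₁ : z₁ ∈ Rz ε) (hz₂ : z₂ ∈ Rz ε) :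
    ‖u - w z₁‖ ≤ (16 / ε) ^ (8 * L.length + 6) * ‖u - w z₂‖ := by
  classical
  have hAb : ∀ z ∈ Ann ε, z ∈ ball (0 : ℂ) 1 := fun z hz => by
    rw [mem_ball_zero_iff]; exact hz.2
  have hopen := Ann_open ε
  -- the function `W`
  set W : ℂ → ℂ := fun z => if ‖z‖ ≤ 1 - ε then f z / g1 z else w z * PL L z with hW
  have hWA : ∀ z ∈ Ann ε, W z = w z * PL L z := by
    intro z hz
    rw [hW]
    simp only
    rw [if_neg (not_le.2 hz.1)]
  have hWd : DifferentiableOn ℂ W (ball 0 1) := by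
    intro z hz
    apply DifferentiableAt.differentiableWithinAt
    by_cases hzn : ‖z‖ ≤ 1 - ε
    · have hd1 := hg1.differentiableAt (isOpen_ball.mem_nhds hz)
      have hd2 : DifferentiableAt ℂ (fun u => f u / g1 u) z :=
        (hf.differentiableAt (isOpen_ball.mem_nhds hz)).div hd1 (hg1n z hzn)
      refine hd2.congr_of_eventuallyEq ?_
      filter_upwards [hd1.continuousAt.eventually_ne (hg1n z hzn), isOpen_ball.mem_nhds hz]
        with v hv hvb
      rw [hW]
      simp only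
      split_ifs with hvn
      · rfl
      · have hvA : v ∈ Ann ε := ⟨not_le.1 hvn, by rwa [mem_ball_zero_iff] at hvb⟩
        rw [hfw v hvA, hgg v hvb]
        field_simp
    · have hzA : z ∈ Ann ε := ⟨not_le.1 hzn, by rwa [mem_ball_zero_iff] at hz⟩
      have hd2 : DifferentiableAt ℂ (fun u => w u * PL L u) z :=
        (hw.differentiableAt (hopen.mem_nhds hzA)).mul (PL_diff L z)
      refine hd2.congr_of_eventuallyEq ?_
      filter_upwards [hopen.mem_nhds hzA] with v hv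
      exact hWA v hv
  -- the function `Q`
  set Q : ℂ → ℂ := fun z => u * PL L z - W z with hQ
  have hQd : DifferentiableOn ℂ Q (ball 0 1) := ((PL_diff L).differentiableOn.const_mul u).sub hWd
  have hQA : ∀ z ∈ Ann ε, Q z = PL L z * (u - w z) := by
    intro z hz
    rw [hQ]
    simp only
    rw [hWA z hz]
    ring
  have huw : ∀ z ∈ Ann ε, u - w z ≠ 0 := by
    intro z hz h
    have h1 := hw1 z hz
    rw [← sub_eq_zero.1 h, hu] at h1
    exact lt_irrefl _ h1
  have hQne : ∀ z ∈ Ann ε, Q z ≠ 0 := fun z hz => by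
    rw [hQA z hz]
    exact mul_ne_zero (PL_ne hL hz) (huw z hz)
  have hn : ‖((1 - ε / 4 : ℝ) : ℂ)‖ = 1 - ε / 4 := by
    rw [Complex.norm_real, Real.norm_eq_abs, abs_of_nonneg (by linarith)]
  have hz0A : ((1 - ε / 4 : ℝ) : ℂ) ∈ Ann ε := by
    refine ⟨?_, ?_⟩ <;> rw [hn] <;> linarith
  obtain ⟨L', Q1, hL', hQ1d, hQQ, hQ1n⟩ := factor hε hε2 hQd ⟨_, hAb _ hz0A, hQne _ hz0A⟩
  have hQ1ne : ∀ z ∈ ball (0 : ℂ) 1, Q1 z ≠ 0 := by
    intro z hz
    by_cases hzn : ‖z‖ ≤ 1 - ε
    · exact hQ1n z hzn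
    · have hzA : z ∈ Ann ε := ⟨not_le.1 hzn, by rwa [mem_ball_zero_iff] at hz⟩
      intro h0
      apply hQne z hzA
      rw [hQQ z hz, h0, mul_zero]
  obtain ⟨h, hhd, hhe⟩ := exists_log hQ1d hQ1ne
  have hmain : ∀ z ∈ Ann ε, PL L z * (u - w z) = PL L' z * Complex.exp (h z) := by
    intro z hz
    rw [← hQA z hz, hQQ z (hAb z hz), hhe z (hAb z hz)]
  -- the logarithm of `1 - ū w`
  have huu : u * conj u = 1 := by
    rw [Complex.mul_conj, Complex.normSq_eq_norm_sq, hu]
    norm_num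
  have hl0 : ∀ z ∈ Ann ε, 0 < (1 - conj u * w z).re := by
    intro z hz
    have h1 : ‖conj u * w z‖ < 1 := by
      rw [norm_mul, Complex.norm_conj, hu, one_mul]
      exact hw1 z hz
    have h2 := Complex.re_le_norm (conj u * w z)
    rw [Complex.sub_re, Complex.one_re]
    linarith
  set l : ℂ → ℂ := fun z => Complex.log (1 - conj u * w z) with hl
  have hld : ∀ z ∈ Ann ε, DifferentiableAt ℂ l z := by
    intro z hz
    apply DifferentiableAt.clog
    · exact (differentiableAt_const _).sub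
        ((hw.differentiableAt (hopen.mem_nhds hz)).const_mul _)
    · exact Or.inl (hl0 z hz)
  have hle : ∀ z ∈ Ann ε, u * Complex.exp (l z) = u - w z := by
    intro z hz
    rw [hl]
    simp only
    rw [Complex.exp_log (ne_zero_of_re (hl0 z hz)), mul_sub, mul_one, ← mul_assoc, huu, one_mul]
  -- the function `k`
  set k : ℂ → ℂ := fun z => Lam L z + l z - Lam L' z - h z with hk
  have hkd : ∀ z ∈ Ann ε, DifferentiableAt ℂ k z := by
    intro z hz
    exact (((Lam_diff hε2 hL hz).add (hld z hz)).sub (Lam_diff hε2 hL' hz)).sub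
      (hhd.differentiableAt (isOpen_ball.mem_nhds (hAb z hz)))
  have hke : ∀ z ∈ Ann ε, u * (z ^ L.length * Complex.exp (k z)) = z ^ L'.length := by
    intro z hz
    have h1 := hmain z hz
    rw [← exp_Lam hε2 hL hz, ← exp_Lam hε2 hL' hz, ← hle z hz] at h1
    have h2 : Complex.exp (k z) = Complex.exp (Lam L z) * Complex.exp (l z) /
        (Complex.exp (Lam L' z) * Complex.exp (h z)) := by
      rw [hk, ← Complex.exp_add, ← Complex.exp_add, ← Complex.exp_sub]
      congr 1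
      ring
    have h3 : Complex.exp (Lam L' z) * Complex.exp (h z) ≠ 0 :=
      mul_ne_zero (Complex.exp_ne_zero _) (Complex.exp_ne_zero _)
    rw [h2]
    have h4 : u * (z ^ L.length * (Complex.exp (Lam L z) * Complex.exp (l z) /
        (Complex.exp (Lam L' z) * Complex.exp (h z)))) =
        (Complex.exp (Lam L z) * z ^ L.length * (u * Complex.exp (l z))) /
          (Complex.exp (Lam L' z) * Complex.exp (h z)) := by
      ring
    rw [h4, h1]
    field_simp
  have hk' : ∀ z ∈ Ann ε, HasDerivAt k (((L'.length : ℂ) - L.length) * (z - 0)⁻¹) z := by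
    intro z hz
    have hz0 := z_ne hε2 hz
    have h1 : HasDerivAt (fun z : ℂ => u * (z ^ L.length * Complex.exp (k z)))
        (u * ((L.length : ℂ) * z ^ (L.length - 1) * Complex.exp (k z) +
          z ^ L.length * (Complex.exp (k z) * deriv k z))) z :=
      (((hasDerivAt_pow L.length z).mul ((hkd z hz).hasDerivAt.cexp)).const_mul u)
    have h2 : HasDerivAt (fun z : ℂ => u * (z ^ L.length * Complex.exp (k z)))
        ((L'.length : ℂ) * z ^ (L'.length - 1)) z := by
      refine (hasDerivAt_pow L'.length z).congr_of_eventuallyEq ?_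
      filter_upwards [hopen.mem_nhds hz] with v hv
      exact hke v hv
    have h3 := h1.unique h2
    have hp : ∀ n : ℕ, (n : ℂ) * z ^ (n - 1) * z = n * z ^ n := by
      intro n
      rcases n with _ | n
      · simp
      · rw [Nat.add_sub_cancel, pow_succ, mul_assoc]
    have h4 : z ^ L'.length * ((L.length : ℂ) + deriv k z * z) = (L'.length : ℂ) * z ^ L'.length := by
      rw [← hp L'.length, ← h3]
      have e1 : (u * ((L.length : ℂ) * z ^ (L.length - 1) * Complex.exp (k z) +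
          z ^ L.length * (Complex.exp (k z) * deriv k z))) * z =
          u * (((L.length : ℂ) * z ^ (L.length - 1) * z) * Complex.exp (k z) +
          z ^ L.length * Complex.exp (k z) * (deriv k z * z)) := by ring
      rw [e1, hp L.length]
      have e2 : u * ((L.length : ℂ) * z ^ L.length * Complex.exp (k z) +
          z ^ L.length * Complex.exp (k z) * (deriv k z * z)) =
          (u * (z ^ L.length * Complex.exp (k z))) * ((L.length : ℂ) + deriv k z * z) := by ring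
      rw [e2, hke z hz]
    have h5 : (L.length : ℂ) + deriv k z * z = L'.length := by
      have hzn : z ^ L'.length ≠ 0 := pow_ne_zero _ hz0
      apply mul_left_cancel₀ hzn
      rw [h4, mul_comm]
    have h6 : deriv k z = ((L'.length : ℂ) - L.length) * (z - 0)⁻¹ := by
      rw [← h5, sub_zero]
      field_simp
      ring
    rw [← h6]
    exact (hkd z hz).hasDerivAt
  have hNn : L'.length = L.length := by
    have hr : (0 : ℝ) < 1 - ε / 4 := by linarith
    have h1 := circleIntegral.integral_eq_zero_of_hasDerivWithinAt (f := k)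
      (f' := fun z => ((L'.length : ℂ) - L.length) * (z - 0)⁻¹) (c := 0) hr.le (fun z hz => by
        rw [mem_sphere_zero_iff_norm] at hz
        exact (hk' z ⟨by rw [hz]; linarith, by rw [hz]; linarith⟩).hasDerivWithinAt)
    rw [circleIntegral.integral_const_mul, circleIntegral.integral_sub_center_inv 0 hr.ne'] at h1
    have h2 : (2 * π * Complex.I : ℂ) ≠ 0 := Complex.two_pi_I_ne_zero
    have h3 := (mul_eq_zero.1 h1).resolve_right h2
    have h4 : (L'.length : ℂ) = L.length := sub_eq_zero.1 h3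
    exact_mod_cast h4
  obtain ⟨κ, hκ⟩ : ∃ κ : ℂ, ∀ z ∈ Ann ε, k z = κ := by
    refine hopen.exists_is_const_of_deriv_eq_zero (Ann_preconn hε2)
      (fun z hz => (hkd z hz).differentiableWithinAt) (fun z hz => ?_)
    rw [(hk' z hz).deriv, hNn, sub_self, zero_mul]
    rfl
  -- Harnack's inequality for `h + κ`
  have hH : ∀ z : ℂ, ‖z‖ ≤ 1 - ε / 8 →
      |((h z + κ)).re - ((h 0 + κ)).re| ≤ (3 * ((L.length : ℝ) + 1)) * Real.log (16 / ε) := by
    intro z hz
    have hd : DifferentiableOn ℂ (fun z => h z + κ) (ball 0 1) := hhd.add_const κ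
    have hL0 : (0 : ℝ) ≤ L.length := Nat.cast_nonneg _
    refine harnack (A := ((L.length : ℝ) + 1) * π) hε hε2 (by positivity)
      (by nlinarith [Real.pi_pos]) hd (im_bound hε hε2 hd fun v hv => ?_) z hz
    have h1 : h v + κ = Lam L v + l v - Lam L' v := by
      rw [← hκ v hv, hk]
      ring
    rw [h1, Complex.sub_im, Complex.add_im]
    have h2 := abs_le.1 (Lam_im hε2 hL hv)
    have h3 := abs_le.1 (Lam_im hε2 hL' hv)
    have h4 := abs_le.1 (log_im (hl0 v hv))
    have h5 : (l v).im = (Complex.log (1 - conj u * w v)).im := rfl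
    rw [hNn] at h3
    have hpi := Real.pi_pos
    rw [abs_le]
    constructor <;> rw [h5] <;> linarith [h2.1, h2.2, h3.1, h3.2, h4.1, h4.2]
  have hlogT : 0 ≤ Real.log (16 / ε) := by
    apply Real.log_nonneg
    rw [le_div_iff₀ hε]
    linarith
  have hT0 : 0 < 16 / ε := by positivity
  have hE : Real.exp (h z₁).re ≤ (16 / ε) ^ (6 * (L.length + 1)) * Real.exp (h z₂).re := by
    have h1 := abs_le.1 (hH z₁ hz₁.2)
    have h2 := abs_le.1 (hH z₂ hz₂.2)
    simp only [Complex.add_re] at h1 h2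
    have h3 : (h z₁).re ≤ (6 * (L.length + 1) : ℕ) * Real.log (16 / ε) + (h z₂).re := by
      push_cast
      linarith [h1.2, h2.1]
    calc Real.exp (h z₁).re ≤ Real.exp ((6 * (L.length + 1) : ℕ) * Real.log (16 / ε) + (h z₂).re) :=
          Real.exp_le_exp.2 h3
      _ = _ := by
          rw [Real.exp_add, Real.exp_nat_mul, Real.exp_log hT0]
  -- conclusion
  have hRA : ∀ z ∈ Rz ε, z ∈ Ann ε := fun z hz => ⟨by linarith [hz.1], by linarith [hz.2]⟩
  have hnorm : ∀ z ∈ Rz ε, ‖PL L z‖ * ‖u - w z‖ = ‖PL L' z‖ * Real.exp (h z).re := by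
    intro z hz
    have h1 := congrArg norm (hmain z (hRA z hz))
    rwa [norm_mul, norm_mul, Complex.norm_exp] at h1
  have hup : ∀ M : List ℂ, (∀ b ∈ M, ‖b‖ ≤ 1 - ε) → ∀ z ∈ Rz ε, ‖PL M z‖ ≤ 2 ^ M.length :=
    fun M hM z hz => PL_upper (fun b hb => (hM b hb).trans (by linarith)) (by linarith [hz.2])
  have hlo : ∀ M : List ℂ, (∀ b ∈ M, ‖b‖ ≤ 1 - ε) → ∀ z ∈ Rz ε,
      (ε / 2) ^ M.length ≤ ‖PL M z‖ := by
    intro M hM z hz
    refine PL_lower (by linarith) fun b hb => ?_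
    have h1 := norm_sub_norm_le z b
    linarith [hM b hb, hz.1]
  have hN1 : 0 < (ε / 2) ^ L.length := by positivity
  have hTN : (2 : ℝ) ^ L.length ≤ (ε / 2) ^ L.length * (16 / ε) ^ L.length := by
    rw [← mul_pow]
    apply pow_le_pow_left₀ (by norm_num)
    have : ε / 2 * (16 / ε) = 8 := by field_simp; norm_num
    linarith
  have h1 : ‖u - w z₁‖ ≤ (16 / ε) ^ L.length * Real.exp (h z₁).re := by
    have e1 := hnorm z₁ hz₁
    have e2 := hup L' hL' z₁ hz₁
    have e3 := hlo L hL z₁ hz₁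
    rw [hNn] at e2
    have hx : 0 < Real.exp (h z₁).re := Real.exp_pos _
    have e4 : (ε / 2) ^ L.length * ‖u - w z₁‖ ≤
        (ε / 2) ^ L.length * ((16 / ε) ^ L.length * Real.exp (h z₁).re) := by
      calc (ε / 2) ^ L.length * ‖u - w z₁‖ ≤ ‖PL L z₁‖ * ‖u - w z₁‖ :=
            mul_le_mul_of_nonneg_right e3 (norm_nonneg _)
        _ = ‖PL L' z₁‖ * Real.exp (h z₁).re := e1
        _ ≤ 2 ^ L.length * Real.exp (h z₁).re := mul_le_mul_of_nonneg_right e2 hx.le
        _ ≤ ((ε / 2) ^ L.length * (16 / ε) ^ L.length) * Real.exp (h z₁).re :=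
            mul_le_mul_of_nonneg_right hTN hx.le
        _ = _ := by ring
    exact le_of_mul_le_mul_left e4 hN1
  have h2 : Real.exp (h z₂).re ≤ (16 / ε) ^ L.length * ‖u - w z₂‖ := by
    have e1 := hnorm z₂ hz₂
    have e2 := hup L hL z₂ hz₂
    have e3 := hlo L' hL' z₂ hz₂
    rw [hNn] at e3
    have hx : 0 < Real.exp (h z₂).re := Real.exp_pos _
    have e4 : (ε / 2) ^ L.length * Real.exp (h z₂).re ≤
        (ε / 2) ^ L.length * ((16 / ε) ^ L.length * ‖u - w z₂‖) := by
      calc (ε / 2) ^ L.length * Real.exp (h z₂).re ≤ ‖PL L' z₂‖ * Real.exp (h z₂).re :=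
            mul_le_mul_of_nonneg_right e3 hx.le
        _ = ‖PL L z₂‖ * ‖u - w z₂‖ := e1.symm
        _ ≤ 2 ^ L.length * ‖u - w z₂‖ := mul_le_mul_of_nonneg_right e2 (norm_nonneg _)
        _ ≤ ((ε / 2) ^ L.length * (16 / ε) ^ L.length) * ‖u - w z₂‖ :=
            mul_le_mul_of_nonneg_right hTN (norm_nonneg _)
        _ = _ := by ring
    exact le_of_mul_le_mul_left e4 hN1
  calc ‖u - w z₁‖ ≤ (16 / ε) ^ L.length * Real.exp (h z₁).re := h1
    _ ≤ (16 / ε) ^ L.length * ((16 / ε) ^ (6 * (L.length + 1)) *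
        ((16 / ε) ^ L.length * ‖u - w z₂‖)) := by
        refine mul_le_mul_of_nonneg_left (hE.trans ?_) (by positivity)
        exact mul_le_mul_of_nonneg_left h2 (by positivity)
    _ = _ := by
        have : 8 * L.length + 6 = L.length + 6 * (L.length + 1) + L.length := by ring
        rw [this, pow_add, pow_add]
        ring

/-- The comparison of the values of the quotient. -/
theorem chain_n {ε : ℝ} {f g g1 w : ℂ → ℂ} {L : List ℂ} (hε : 0 < ε) (hε2 : ε ≤ 1 / 2)
    (hf : DifferentiableOn ℂ f (ball 0 1)) (hg1 : DifferentiableOn ℂ g1 (ball 0 1))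
    (hL : ∀ b ∈ L, ‖b‖ ≤ 1 - ε) (hgg : ∀ z ∈ ball (0 : ℂ) 1, g z = PL L z * g1 z)
    (hg1n : ∀ z : ℂ, ‖z‖ ≤ 1 - ε → g1 z ≠ 0) (hw : DifferentiableOn ℂ w (Ann ε))
    (hw1 : ∀ z ∈ Ann ε, ‖w z‖ ≤ 1) (hfw : ∀ z ∈ Ann ε, f z = w z * g z) {z z' : ℂ}
    (hz : z ∈ Rz ε) (hz' : z' ∈ Rz ε) :
    1 - ‖w z'‖ ≤ (16 / ε) ^ (8 * L.length + 7) * (1 - ‖w z‖) ∧
      ‖w z' - w z‖ ≤ (16 / ε) ^ (8 * L.length + 7) * (1 - ‖w z‖) := by
  have hRA : ∀ z ∈ Rz ε, z ∈ Ann ε := fun z hz => ⟨by linarith [hz.1], by linarith [hz.2]⟩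
  have hT0 : 0 < 16 / ε := by positivity
  have hδ : 0 ≤ 1 - ‖w z‖ := by linarith [hw1 z (hRA z hz)]
  by_cases hc : ∃ c ∈ Ann ε, ‖w c‖ = 1
  · obtain ⟨c, hcA, hc1⟩ := hc
    have h1 : EqOn w (Function.const ℂ (w c)) (Ann ε) :=
      Complex.eqOn_of_isPreconnected_of_isMaxOn_norm (Ann_preconn hε2) (Ann_open ε) hw hcA
        (fun v hv => by
          show ‖w v‖ ≤ ‖w c‖
          rw [hc1]; exact hw1 v hv)
    have h2 : w z = w c := h1 (hRA z hz)
    have h3 : w z' = w c := h1 (hRA z' hz')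
    rw [h2, h3, hc1]
    simp
  · push Not at hc
    have hw2 : ∀ z ∈ Ann ε, ‖w z‖ < 1 := fun v hv => lt_of_le_of_ne (hw1 v hv) (hc v hv)
    obtain ⟨u, hu, huz⟩ : ∃ u : ℂ, ‖u‖ = 1 ∧ ‖u - w z‖ = 1 - ‖w z‖ := by
      by_cases h0 : w z = 0
      · exact ⟨1, norm_one, by rw [h0]; simp⟩
      · have hn : 0 < ‖w z‖ := norm_pos_iff.2 h0
        refine ⟨w z / (‖w z‖ : ℂ), ?_, ?_⟩
        · rw [norm_div, Complex.norm_real, norm_norm, div_self hn.ne']
        · have h1 : w z / (‖w z‖ : ℂ) - w z = (((1 - ‖w z‖) / ‖w z‖ : ℝ) : ℂ) * w z := by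
            have : ((‖w z‖ : ℝ) : ℂ) ≠ 0 := by exact_mod_cast hn.ne'
            push_cast
            field_simp
          rw [h1, norm_mul, Complex.norm_real, Real.norm_of_nonneg (div_nonneg hδ hn.le)]
          field_simp
    have h1 := comp_u hε hε2 hf hg1 hL hgg hg1n hw hw2 hfw hu hz' hz
    rw [huz] at h1
    have hT : (2 : ℝ) ≤ 16 / ε := by
      rw [le_div_iff₀ hε]
      linarith
    have hM : 1 ≤ (16 / ε) ^ (8 * L.length + 6) := one_le_pow₀ (by linarith)
    have h2 : (16 / ε) ^ (8 * L.length + 7) = (16 / ε) ^ (8 * L.length + 6) * (16 / ε) := by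
      rw [← pow_succ]
    have h3 : 2 * ((16 / ε) ^ (8 * L.length + 6) * (1 - ‖w z‖)) ≤
        (16 / ε) ^ (8 * L.length + 7) * (1 - ‖w z‖) := by
      rw [h2]
      have : 0 ≤ (16 / ε) ^ (8 * L.length + 6) * (1 - ‖w z‖) := by positivity
      nlinarith
    have h4 : 1 - ‖w z‖ ≤ (16 / ε) ^ (8 * L.length + 6) * (1 - ‖w z‖) := by nlinarith
    constructor
    · have h5 : 1 - ‖w z'‖ ≤ ‖u - w z'‖ := by
        have := norm_sub_norm_le u (w z')
        rwa [hu] at this
      linarith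
    · have h5 : ‖w z' - w z‖ ≤ ‖u - w z'‖ + ‖u - w z‖ := by
        have e : w z' - w z = (u - w z) - (u - w z') := by ring
        rw [e]
        refine (norm_sub_le _ _).trans ?_
        rw [add_comm]
      rw [huz] at h5
      linarith

end Pool.Agent.KS6_44.KB.N
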