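import Pool.Agent.KS6_44.KB.Y922Stm

/-!
# Project KB of helper922, part INT (helper606): the integral inequality
-/

set_option autoImplicit false

namespace Pool.Agent.KS6_44.KB.Y606

open Pool.Agent.KS6_44.KB.Y922
open Complex Metric MeasureTheory Set
open scoped Real

theorem enorm_rpow (f : ℂ → ℂ) {p : ℝ} (hp : 0 ≤ p) (z : ℂ) :
    ‖f z‖ₑ ^ p = ENNReal.ofReal (‖f z‖ ^ p) := by
  rw [← ofReal_norm, ENNReal.ofReal_rpow_of_nonneg (norm_nonneg _) hp]

theorem lint_eq {f : ℂ → ℂ} {p : ℝ} (hp : 0 ≤ p) {S : Set ℂ}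
    (h : IntegrableOn (fun z => ‖f z‖ ^ p) S) :
    ∫⁻ z in S, ‖f z‖ₑ ^ p = ENNReal.ofReal (∫ z in S, ‖f z‖ ^ p) := by
  rw [ofReal_integral_eq_lintegral_ofReal h
    (Filter.Eventually.of_forall fun z => Real.rpow_nonneg (norm_nonneg _) _)]
  exact lintegral_congr fun z => enorm_rpow f hp z

theorem t_INT : S_INT := by
  intro ε p Γ lam f g hε hε2 hp hΓ hl0 hl1 hf hg h1 h2 h3 h4
  have hp0 : 0 ≤ p := by linarith
  set D : Set ℂ := closedBall 0 (1 - ε) with hD
  have hDb : D ⊆ ball 0 1 := closedBall_subset_ball (by linarith)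
  have hRb : Rp ε ⊆ ball 0 1 := by
    intro z hz
    rw [mem_ball_zero_iff]
    have := hz.2
    linarith
  have hDc : IsCompact D := isCompact_closedBall _ _
  have hRc : IsCompact (Rp ε) := by
    have h : Rp ε = closedBall 0 (1 - ε / 8) ∩ {z : ℂ | 1 - ε / 4 ≤ ‖z‖} := by
      ext z
      simp only [Rp, mem_ofPred_eq, mem_inter_iff, mem_closedBall_zero_iff]
      exact and_comm
    rw [h]
    exact (isCompact_closedBall _ _).inter_right (isClosed_le continuous_const continuous_norm)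
  have hDR : Disjoint D (Rp ε) := by
    rw [Set.disjoint_left]
    intro z hz hz'
    rw [hD, mem_closedBall_zero_iff] at hz
    have := hz'.1
    linarith
  have hcf : ContinuousOn (fun z => ‖f z‖ ^ p) (ball 0 1) :=
    hf.continuousOn.norm.rpow_const fun z _ => Or.inr hp0
  have hcg : ContinuousOn (fun z => ‖g z‖ ^ p) (ball 0 1) :=
    hg.continuousOn.norm.rpow_const fun z _ => Or.inr hp0
  have ifD : IntegrableOn (fun z => ‖f z‖ ^ p) D := (hcf.mono hDb).integrableOn_compact hDc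
  have ifR : IntegrableOn (fun z => ‖f z‖ ^ p) (Rp ε) := (hcf.mono hRb).integrableOn_compact hRc
  have igD : IntegrableOn (fun z => ‖g z‖ ^ p) D := (hcg.mono hDb).integrableOn_compact hDc
  have igR : IntegrableOn (fun z => ‖g z‖ ^ p) (Rp ε) := (hcg.mono hRb).integrableOn_compact hRc
  have icD : IntegrableOn (fun _ : ℂ => Γ) D :=
    continuousOn_const.integrableOn_compact hDc
  have hvol : volume.real D ≤ π := by
    have hv : volume D = ENNReal.ofReal (1 - ε) ^ 2 * NNReal.pi := by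
      rw [hD, Complex.volume_closedBall]
    rw [Measure.real, hv, ENNReal.toReal_mul, ENNReal.toReal_pow,
      ENNReal.toReal_ofReal (by linarith)]
    have hpi : ((NNReal.pi : ENNReal)).toReal = π := rfl
    rw [hpi]
    have : (1 - ε) ^ 2 ≤ 1 := by nlinarith
    nlinarith [Real.pi_pos]
  have key : ∫ z in D ∪ Rp ε, ‖f z‖ ^ p ≤ ∫ z in D ∪ Rp ε, ‖g z‖ ^ p := by
    rw [setIntegral_union hDR hRc.measurableSet ifD ifR,
      setIntegral_union hDR hRc.measurableSet igD igR]
    have k1 : ∫ z in D, ‖f z‖ ^ p ≤ ∫ z in D, (‖g z‖ ^ p + Γ) := by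
      apply setIntegral_mono_on ifD (igD.add icD) hDc.measurableSet
      intro z hz
      rw [hD, mem_closedBall_zero_iff] at hz
      exact h2 z hz
    have k2 : ∫ z in D, (‖g z‖ ^ p + Γ) = (∫ z in D, ‖g z‖ ^ p) + volume.real D * Γ := by
      rw [integral_add igD icD, setIntegral_const, smul_eq_mul]
    have k4 : ∫ z in Rp ε, ‖f z‖ ^ p ≤ ∫ z in Rp ε, (1 - lam) * ‖g z‖ ^ p :=
      setIntegral_mono_on ifR (igR.const_mul _) hRc.measurableSet h3
    have k5 : ∫ z in Rp ε, (1 - lam) * ‖g z‖ ^ p = (1 - lam) * ∫ z in Rp ε, ‖g z‖ ^ p :=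
      integral_const_mul _ _
    have k6 : volume.real D * Γ ≤ π * Γ := mul_le_mul_of_nonneg_right hvol hΓ
    rw [k2] at k1
    rw [k5] at k4
    linarith
  have hms : MeasurableSet (D ∪ Rp ε) := hDc.measurableSet.union hRc.measurableSet
  have hsub : D ∪ Rp ε ⊆ ball 0 1 := union_subset hDb hRb
  rw [← lintegral_inter_add_sdiff (fun z => ‖f z‖ₑ ^ p) (ball (0 : ℂ) 1) hms,
    ← lintegral_inter_add_sdiff (fun z => ‖g z‖ₑ ^ p) (ball (0 : ℂ) 1) hms,
    inter_eq_self_of_subset_right hsub]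
  refine add_le_add ?_ ?_
  · rw [lint_eq hp0 (ifD.union ifR), lint_eq hp0 (igD.union igR)]
    exact ENNReal.ofReal_le_ofReal key
  · refine setLIntegral_mono' (measurableSet_ball.diff hms) fun z hz => ?_
    have hz1 : ‖z‖ < 1 := mem_ball_zero_iff.mp hz.1
    have hz2 : 1 - ε < ‖z‖ := by
      by_contra hc
      push Not at hc
      exact hz.2 (Or.inl (mem_closedBall_zero_iff.mpr hc))
    rw [enorm_rpow f hp0, enorm_rpow g hp0]
    exact ENNReal.ofReal_le_ofReal (Real.rpow_le_rpow (norm_nonneg _) (h1 z ⟨hz2, hz1⟩) hp0)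

end Pool.Agent.KS6_44.KB.Y606
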