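import Pool.Agent.KS6_44.KB.Y922Stm

set_option autoImplicit false

namespace Pool.Agent.KS6_44.KB.Y922

theorem bern (b t p : ℝ) (hb : 0 ≤ b) (ht : 0 ≤ t) (hp : 1 ≤ p) :
    (b + t) ^ p ≤ b ^ p + p * t * (b + t) ^ (p - 1) := by
  rcases eq_or_lt_of_le (add_nonneg hb ht) with h | h
  · have hb0 : b = 0 := by linarith
    have ht0 : t = 0 := by linarith
    subst hb0 ht0
    simp
  · set y := b + t with hy
    have h1 := one_add_mul_self_le_rpow_one_add (s := b / y - 1) (by
      have : 0 ≤ b / y := by positivity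
      linarith) hp
    have h2 : (1 + (b / y - 1)) ^ p * y ^ p = b ^ p := by
      rw [show 1 + (b / y - 1) = b / y by ring, ← Real.mul_rpow (by positivity) h.le, div_mul_cancel₀ _ h.ne']
    have h3 : 0 < y ^ p := Real.rpow_pos_of_pos h p
    have h4 : y ^ p = y * y ^ (p - 1) := by
      rw [← Real.rpow_one_add' h.le (by linarith)]
      congr 1
      ring
    have h5 : (1 + p * (b / y - 1)) * y ^ p ≤ b ^ p := by
      rw [← h2]
      exact mul_le_mul_of_nonneg_right h1 h3.le
    have h6 : (1 + p * (b / y - 1)) * y ^ p = y ^ p - p * t * y ^ (p - 1) := by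
      have h7 : (b / y - 1) * y ^ p = - (t * y ^ (p - 1)) := by
        rw [h4]
        have : (b / y - 1) * y = -t := by
          field_simp
          linarith
        calc (b / y - 1) * (y * y ^ (p - 1)) = ((b / y - 1) * y) * y ^ (p - 1) := by ring
          _ = _ := by rw [this]; ring
      calc (1 + p * (b / y - 1)) * y ^ p = y ^ p + p * ((b / y - 1) * y ^ p) := by ring
        _ = _ := by rw [h7]; ring
    linarith

theorem exp_half (y : ℝ) (h0 : 0 ≤ y) (h1 : y ≤ 1) : Real.exp (-y) ≤ 1 - y / 2 := by
  have h2 : 1 + y ≤ Real.exp y := by linarith [Real.add_one_le_exp y]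
  have h3 : 0 < Real.exp y := Real.exp_pos y
  rw [Real.exp_neg]
  rw [inv_le_comm₀ h3 (by linarith)]
  refine le_trans ?_ h2
  rw [inv_le_iff_one_le_mul₀ (by linarith)]
  nlinarith

theorem pow_exp (x u p : ℝ) (hx : 0 ≤ x) (hxu : x ≤ 1 - u) (hp : 1 ≤ p) : x ^ p ≤ Real.exp (-(p * u)) := by
  have h1 : x ≤ Real.exp (-u) := by linarith [Real.add_one_le_exp (-u)]
  refine (Real.rpow_le_rpow hx h1 (by linarith)).trans (le_of_eq ?_)
  rw [← Real.exp_mul]
  congr 1
  ring

theorem t_REG : S_REG := by
  intro M δ m p hM hδ0 hδ1 hm hp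
  have hM0 : 0 < M := by linarith
  by_cases h : p * M * δ ≤ 1
  · refine ⟨Real.exp 1 * (p * M * δ) * m ^ p, p * δ / (2 * M), by positivity, by positivity, ?_, ?_, ?_, ?_⟩
    · rw [div_le_one (by positivity)]
      have : p * δ ≤ p * M * δ := by
        have : 0 ≤ p * δ := by positivity
        nlinarith
      linarith
    · apply le_of_eq
      field_simp
    · intro a b ha ham hb hbm hab
      have ht : 0 ≤ M * δ * m := by positivity
      have h1 : a ^ p ≤ (b + M * δ * m) ^ p := Real.rpow_le_rpow ha hab (by linarith)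
      have h2 := bern b (M * δ * m) p hb ht hp
      have h3 : (b + M * δ * m) ^ (p - 1) ≤ (m * Real.exp (M * δ)) ^ (p - 1) := by
        refine Real.rpow_le_rpow (by positivity) ?_ (by linarith)
        have h4 : 1 + M * δ ≤ Real.exp (M * δ) := by linarith [Real.add_one_le_exp (M * δ)]
        nlinarith
      have h5 : (m * Real.exp (M * δ)) ^ (p - 1) = m ^ (p - 1) * Real.exp (M * δ * (p - 1)) := by
        rw [Real.mul_rpow hm (Real.exp_pos _).le, ← Real.exp_mul]
      have h6 : Real.exp (M * δ * (p - 1)) ≤ Real.exp 1 := by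
        apply Real.exp_le_exp.2
        have : 0 ≤ M * δ := by positivity
        nlinarith
      have h7 : m * m ^ (p - 1) = m ^ p := by
        rw [← Real.rpow_one_add' hm (by linarith)]
        congr 1
        ring
      have h8 : 0 ≤ m ^ (p - 1) := Real.rpow_nonneg hm _
      calc a ^ p ≤ b ^ p + p * (M * δ * m) * (b + M * δ * m) ^ (p - 1) := h1.trans h2
        _ ≤ b ^ p + p * (M * δ * m) * (m ^ (p - 1) * Real.exp 1) := by
            gcongr
            rw [h5] at h3
            exact h3.trans (mul_le_mul_of_nonneg_left h6 h8)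
        _ = b ^ p + Real.exp 1 * (p * M * δ) * (m * m ^ (p - 1)) := by ring
        _ = _ := by rw [h7]
    · intro x hx hx1
      have h1 := pow_exp x (δ / M) p hx hx1 hp
      have h2 : p * (δ / M) ≤ 1 := by
        have h3 : δ / M ≤ M * δ := by
          rw [div_le_iff₀ hM0]
          nlinarith [mul_nonneg hδ0 (by nlinarith : (0:ℝ) ≤ M * M - 1)]
        calc p * (δ / M) ≤ p * (M * δ) := by gcongr
          _ ≤ 1 := by linarith
      have h3 := exp_half (p * (δ / M)) (by positivity) h2
      refine (h1.trans h3).trans (le_of_eq ?_)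
      field_simp
  · push Not at h
    refine ⟨m ^ p, 1 / (2 * M ^ 2), by positivity, by positivity, ?_, ?_, ?_, ?_⟩
    · rw [div_le_one (by positivity)]
      nlinarith
    · have h1 : 2 * Real.exp 1 * M ^ 2 * (1 / (2 * M ^ 2)) * m ^ p = Real.exp 1 * m ^ p := by
        field_simp
      rw [h1]
      have h2 : 0 ≤ m ^ p := Real.rpow_nonneg hm _
      have h3 : 1 ≤ Real.exp 1 := Real.one_le_exp (by norm_num)
      nlinarith
    · intro a b ha ham hb hbm _
      have h1 : a ^ p ≤ m ^ p := Real.rpow_le_rpow ha ham (by linarith)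
      have h2 : 0 ≤ b ^ p := Real.rpow_nonneg hb _
      linarith
    · intro x hx hx1
      have h1 := pow_exp x (δ / M) p hx hx1 hp
      have h2 : 1 / M ^ 2 ≤ p * (δ / M) := by
        rw [div_le_iff₀ (by positivity)]
        have : p * (δ / M) * M ^ 2 = p * M * δ := by
          field_simp
        rw [this]
        exact h.le
      have h3 : Real.exp (-(p * (δ / M))) ≤ Real.exp (-(1 / M ^ 2)) := Real.exp_le_exp.2 (by linarith)
      have h4 : 1 / M ^ 2 ≤ 1 := by
        rw [div_le_one (by positivity)]
        nlinarith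
      have h5 := exp_half (1 / M ^ 2) (by positivity) h4
      refine (h1.trans (h3.trans h5)).trans (le_of_eq ?_)
      field_simp

end Pool.Agent.KS6_44.KB.Y922
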