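import Pool.Agent.KS6_44.KB.Cnt
import Pool.Agent.KS6_44.KB.Y409Quo
import Pool.Agent.KS6_44.KB.Y87NZ
import Pool.Agent.KS6_44.KB.Y922Reg
import Pool.Agent.KS6_44.KB.Y606Int

/-!
`1 - ε` is admissible for `p ≥ 10000 log (1 / ε) / ε ^ 2`.
-/

set_option autoImplicit false

namespace Pool.Agent.KS6_44.KB.N

open Complex Metric MeasureTheory Set Pool.Agent.KS6_44.KB.Y922
open scoped Real Topology

theorem num {ε p : ℝ} {N : ℕ} (hε : 0 < ε) (hε2 : ε ≤ 1 / 2) (hN : 1 ≤ N)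
    (hp : 10000 * Real.log (1 / ε) / ε ^ 2 ≤ p) : 1 ≤ p ∧
    π * (2 * Real.exp 1 * ((16 / ε) ^ (8 * N + 7)) ^ 2) *
      (Real.exp (-(N * (p * ε ^ 2 / 60))) * (256 / ε ^ 2)) ≤ 1 := by
  set l : ℝ := Real.log (1 / ε) with hl
  have hl2 : Real.log 2 ≤ l := by
    apply Real.log_le_log (by norm_num)
    rw [le_div_iff₀ hε]
    linarith
  have h2 := Real.log_two_gt_d9
  have hl0 : 0 < l := by linarith
  have hN1 : (1 : ℝ) ≤ N := by exact_mod_cast hN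
  have hpe : 10000 * l ≤ p * ε ^ 2 := by
    rwa [div_le_iff₀ (by positivity)] at hp
  have hee : ε ^ 2 ≤ 1 := by nlinarith
  have hp0 : 0 ≤ p := by
    by_contra hcon
    push Not at hcon
    have : p * ε ^ 2 ≤ 0 := mul_nonpos_of_nonpos_of_nonneg hcon.le (by positivity)
    linarith
  refine ⟨by nlinarith, ?_⟩
  have hT : 0 < 16 / ε := by positivity
  have hlT : Real.log (16 / ε) ≤ 5 * l := by
    have h16 : (16 : ℝ) / ε = 2 ^ 4 * (1 / ε) := by ring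
    rw [h16, Real.log_mul (by norm_num) (by positivity), Real.log_pow]
    push_cast
    linarith
  have e1 : ((16 / ε) ^ (8 * N + 7)) ^ 2 ≤ Real.exp (150 * N * l) := by
    rw [← pow_mul]
    have e : (16 / ε) ^ ((8 * N + 7) * 2) = Real.exp (((8 * N + 7) * 2 : ℕ) * Real.log (16 / ε)) := by
      rw [Real.exp_nat_mul, Real.exp_log hT]
    rw [e]
    apply Real.exp_le_exp.2
    push_cast
    have h3 : ((8 * (N : ℝ) + 7) * 2) * Real.log (16 / ε) ≤ ((8 * (N : ℝ) + 7) * 2) * (5 * l) :=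
      mul_le_mul_of_nonneg_left hlT (by positivity)
    nlinarith
  have e2 : 256 / ε ^ 2 ≤ Real.exp (10 * l) := by
    have h3 : 256 / ε ^ 2 = Real.exp (8 * Real.log 2 + 2 * l) := by
      rw [Real.exp_add]
      have h4 : Real.exp (8 * Real.log 2) = 256 := by
        have : (8 : ℝ) * Real.log 2 = ((8 : ℕ) : ℝ) * Real.log 2 := by norm_num
        rw [this, Real.exp_nat_mul, Real.exp_log (by norm_num)]
        norm_num
      have h5 : Real.exp (2 * l) = (1 / ε) ^ 2 := by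
        have : (2 : ℝ) * l = ((2 : ℕ) : ℝ) * l := by norm_num
        rw [this, Real.exp_nat_mul, hl, Real.exp_log (by positivity)]
      rw [h4, h5]
      field_simp
    rw [h3]
    apply Real.exp_le_exp.2
    linarith
  have e3 : π * (2 * Real.exp 1) ≤ Real.exp (5 * l) := by
    have h3 : Real.exp (5 * Real.log 2) = 32 := by
      have : (5 : ℝ) * Real.log 2 = ((5 : ℕ) : ℝ) * Real.log 2 := by norm_num
      rw [this, Real.exp_nat_mul, Real.exp_log (by norm_num)]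
      norm_num
    have h4 : Real.exp (5 * Real.log 2) ≤ Real.exp (5 * l) := Real.exp_le_exp.2 (by linarith)
    have h5 : π ≤ 4 := Real.pi_le_four
    have h6 : Real.exp 1 ≤ 3 := by linarith [Real.exp_one_lt_d9]
    have h7 : π * (2 * Real.exp 1) ≤ 4 * (2 * 3) :=
      mul_le_mul h5 (by linarith) (by positivity) (by norm_num)
    linarith
  have hE0 : 0 < Real.exp (-(N * (p * ε ^ 2 / 60))) := Real.exp_pos _
  calc π * (2 * Real.exp 1 * ((16 / ε) ^ (8 * N + 7)) ^ 2) *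
      (Real.exp (-(N * (p * ε ^ 2 / 60))) * (256 / ε ^ 2))
      = (π * (2 * Real.exp 1)) * ((16 / ε) ^ (8 * N + 7)) ^ 2 *
        (Real.exp (-(N * (p * ε ^ 2 / 60))) * (256 / ε ^ 2)) := by ring
    _ ≤ Real.exp (5 * l) * Real.exp (150 * N * l) *
        (Real.exp (-(N * (p * ε ^ 2 / 60))) * Real.exp (10 * l)) := by
        gcongr
    _ = Real.exp (5 * l + 150 * N * l + (-(N * (p * ε ^ 2 / 60)) + 10 * l)) := by
        rw [Real.exp_add, Real.exp_add, Real.exp_add]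
    _ ≤ Real.exp 0 := by
        apply Real.exp_le_exp.2
        have h3 : (N : ℝ) * (10000 * l / 60) ≤ N * (p * ε ^ 2 / 60) := by
          gcongr
        nlinarith
    _ = 1 := Real.exp_zero

theorem lint_mono (p : ℝ) (hp : 0 ≤ p) (f g : ℂ → ℂ)
    (h : ∀ z ∈ ball (0 : ℂ) 1, ‖f z‖ ≤ ‖g z‖) :
    ∫⁻ z in ball (0 : ℂ) 1, ‖f z‖ₑ ^ p ≤ ∫⁻ z in ball (0 : ℂ) 1, ‖g z‖ₑ ^ p := by
  refine setLIntegral_mono' measurableSet_ball (fun z hz => ENNReal.rpow_le_rpow ?_ hp)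
  exact enorm_le_iff_norm_le.2 (h z hz)

theorem zero_case (ε : ℝ) (hε : 0 < ε) (f g : ℂ → ℂ) (hf : DifferentiableOn ℂ f (ball 0 1))
    (hfg : ∀ z ∈ Ann ε, ‖f z‖ ≤ ‖g z‖) (hε2 : ε ≤ 1 / 2)
    (hg : ∀ z ∈ ball (0 : ℂ) 1, g z = 0) : ∀ z ∈ ball (0 : ℂ) 1, ‖f z‖ ≤ ‖g z‖ := by
  have hopen : IsOpen (Ann ε) := Ann_open ε
  have hn : ‖((1 - ε / 4 : ℝ) : ℂ)‖ = 1 - ε / 4 := by
    rw [Complex.norm_real, Real.norm_eq_abs, abs_of_nonneg (by linarith)]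
  have hz0 : ((1 - ε / 4 : ℝ) : ℂ) ∈ Ann ε := by
    refine ⟨?_, ?_⟩ <;> rw [hn] <;> linarith
  have hb : ((1 - ε / 4 : ℝ) : ℂ) ∈ ball (0 : ℂ) 1 := by
    rw [mem_ball_zero_iff]
    exact hz0.2
  have hev : f =ᶠ[𝓝 ((1 - ε / 4 : ℝ) : ℂ)] 0 := by
    filter_upwards [hopen.mem_nhds hz0] with z hz
    have h1 := hfg z hz
    rw [hg z (by rw [mem_ball_zero_iff]; exact hz.2), norm_zero] at h1
    exact norm_le_zero_iff.1 h1
  have han : AnalyticOnNhd ℂ f (ball 0 1) := hf.analyticOnNhd isOpen_ball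
  have := han.eqOn_zero_of_preconnected_of_eventuallyEq_zero
    (convex_ball (0 : ℂ) 1).isPreconnected hb hev
  intro z hz
  have h1 : f z = 0 := this hz
  rw [h1, norm_zero]
  exact norm_nonneg _

/-- The main theorem. -/
theorem conc {ε p : ℝ} {f g : ℂ → ℂ} (hε : 0 < ε) (hε2 : ε ≤ 1 / 2)
    (hpC : 10000 * Real.log (1 / ε) / ε ^ 2 ≤ p) (hf : DifferentiableOn ℂ f (ball 0 1))
    (hg : DifferentiableOn ℂ g (ball 0 1)) (hfg : ∀ z ∈ Ann ε, ‖f z‖ ≤ ‖g z‖) :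
    ∫⁻ z in ball (0 : ℂ) 1, ‖f z‖ₑ ^ p ≤ ∫⁻ z in ball (0 : ℂ) 1, ‖g z‖ₑ ^ p := by
  have hp1 : 1 ≤ p := (num hε hε2 le_rfl hpC).1
  have hp0 : 0 < p := lt_of_lt_of_le one_pos hp1
  by_cases hg0 : ∀ z ∈ ball (0 : ℂ) 1, g z = 0
  · exact lint_mono p hp0.le f g (zero_case ε hε f g hf hfg hε2 hg0)
  push Not at hg0
  obtain ⟨L, g1, hL, hg1, hgg, hg1n⟩ := factor hε hε2 hg hg0
  by_cases hLe : L = []
  · refine lint_mono p hp0.le f g (Y87.t_NZ ε f g hε hε2 hf hg hfg fun z hz => ?_)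
    rw [hgg z (by rw [mem_ball_zero_iff]; linarith), hLe, PL_nil, one_mul]
    exact hg1n z hz
  have hN : 1 ≤ L.length := List.length_pos_iff.2 hLe
  have hnum1 := (num hε hε2 hN hpC).2
  obtain ⟨w, hw, hw1, hfw⟩ := Y409.t_QUO ε f g hε hε2 hf hg hfg hg0
  set M : ℝ := (16 / ε) ^ (8 * L.length + 7) with hMdef
  set E : ℝ := Real.exp (-(L.length * (p * ε ^ 2 / 60))) * (256 / ε ^ 2) with hE
  have hT : (1 : ℝ) ≤ 16 / ε := by
    rw [le_div_iff₀ hε]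
    linarith
  have hM : 1 ≤ M := one_le_pow₀ hT
  have hM0 : 0 < M := by linarith
  have hch : ∀ z ∈ Rz ε, ∀ z' ∈ Rz ε, 1 - ‖w z'‖ ≤ M * (1 - ‖w z‖) ∧
      ‖w z' - w z‖ ≤ M * (1 - ‖w z‖) := fun z hz z' hz' =>
    chain_n hε hε2 hf hg1 hL hgg hg1n hw hw1 hfw hz hz'
  -- the base point
  have hn : ‖((1 - ε / 4 : ℝ) : ℂ)‖ = 1 - ε / 4 := by
    rw [Complex.norm_real, Real.norm_eq_abs, abs_of_nonneg (by linarith)]
  set z₀ : ℂ := ((1 - ε / 4 : ℝ) : ℂ) with hz₀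
  have hz0R : z₀ ∈ Rz ε := by
    refine ⟨?_, ?_⟩ <;> rw [hn] <;> linarith
  have hz0A : z₀ ∈ Ann ε := by
    refine ⟨?_, ?_⟩ <;> rw [hn] <;> linarith
  have hδ0 : 0 ≤ 1 - ‖w z₀‖ := by linarith [hw1 z₀ hz0A]
  have hδ1 : 1 - ‖w z₀‖ ≤ 1 := by linarith [norm_nonneg (w z₀)]
  have hRA : ∀ z ∈ Rz ε, z ∈ Ann ε := by
    intro z hz
    exact ⟨by linarith [hz.1], by linarith [hz.2]⟩
  have hE0 : 0 ≤ E := by positivity
  have hI0 : 0 ≤ ∫ u in Rp ε, ‖g u‖ ^ p :=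
    integral_nonneg (fun u => Real.rpow_nonneg (norm_nonneg _) _)
  have hEI : 0 ≤ E * ∫ u in Rp ε, ‖g u‖ ^ p := mul_nonneg hE0 hI0
  obtain ⟨m, hm0, hmp⟩ : ∃ m : ℝ, 0 ≤ m ∧ m ^ p = E * ∫ u in Rp ε, ‖g u‖ ^ p :=
    ⟨_, Real.rpow_nonneg hEI p⁻¹, Real.rpow_inv_rpow hEI hp0.ne'⟩
  have hgm : ∀ z : ℂ, ‖z‖ ≤ 1 - ε / 2 → ‖g z‖ ≤ m := by
    intro z hz
    have h1 := bla_n L hε hε2 hp1 hg hg1 hL hgg z hz
    rw [← hE, ← hmp] at h1
    exact (Real.rpow_le_rpow_iff (norm_nonneg _) hm0 hp0).1 h1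
  have hsph : ∀ z : ℂ, ‖z‖ = 1 - ε / 2 → z ∈ Rz ε := by
    intro z hz
    exact ⟨by rw [hz], by rw [hz]; linarith⟩
  have hfm : ∀ z : ℂ, ‖z‖ ≤ 1 - ε / 2 → ‖f z‖ ≤ m := by
    refine maxp (1 - ε / 2) m (by linarith) (by linarith) f hf ?_
    intro z hz
    exact (hfg z (hRA z (hsph z hz))).trans (hgm z hz.le)
  have hFm : ∀ z : ℂ, ‖z‖ ≤ 1 - ε / 2 →
      ‖f z - w z₀ * g z‖ ≤ M * (1 - ‖w z₀‖) * m := by
    refine maxp (1 - ε / 2) _ (by linarith) (by linarith) (fun z => f z - w z₀ * g z)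
      (hf.sub (hg.const_mul (w z₀))) ?_
    intro z hz
    change ‖f z - w z₀ * g z‖ ≤ _
    have h1 := hfw z (hRA z (hsph z hz))
    have h2 := (hch z₀ hz0R z (hsph z hz)).2
    have h3 := hgm z hz.le
    have h4 : f z - w z₀ * g z = (w z - w z₀) * g z := by
      rw [h1]
      ring
    rw [h4, norm_mul]
    exact mul_le_mul h2 h3 (norm_nonneg _) (mul_nonneg hM0.le hδ0)
  have hfb : ∀ z : ℂ, ‖z‖ ≤ 1 - ε / 2 → ‖f z‖ ≤ ‖g z‖ + M * (1 - ‖w z₀‖) * m := by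
    intro z hz
    have h1 := hFm z hz
    have h2 : ‖f z‖ ≤ ‖f z - w z₀ * g z‖ + ‖w z₀ * g z‖ := by
      have := norm_add_le (f z - w z₀ * g z) (w z₀ * g z)
      rwa [sub_add_cancel] at this
    have h3 : ‖w z₀ * g z‖ ≤ ‖g z‖ := by
      rw [norm_mul]
      exact mul_le_of_le_one_left (norm_nonneg _) (hw1 z₀ hz0A)
    linarith
  obtain ⟨Γ, lam, hΓ0, hl0, hl1, hΓ, hreg1, hreg2⟩ :=
    t_REG M (1 - ‖w z₀‖) m p hM hδ0 hδ1 hm0 hp1
  refine Y606.t_INT ε p Γ lam f g hε hε2 hp1 hΓ0 hl0 hl1 hf hg hfg ?_ ?_ ?_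
  · intro z hz
    have hz' : ‖z‖ ≤ 1 - ε / 2 := by linarith
    exact hreg1 ‖f z‖ ‖g z‖ (norm_nonneg _) (hfm z hz') (norm_nonneg _) (hgm z hz') (hfb z hz')
  · intro z hz
    have hzR : z ∈ Rz ε := ⟨by linarith [hz.1], hz.2⟩
    have h1 := (hch z hzR z₀ hz0R).1
    have h2 : ‖w z‖ ≤ 1 - (1 - ‖w z₀‖) / M := by
      have h3 : (1 - ‖w z₀‖) / M ≤ 1 - ‖w z‖ := by
        rw [div_le_iff₀ hM0, mul_comm]
        exact h1
      linarith
    have h3 := hreg2 ‖w z‖ (norm_nonneg _) h2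
    rw [hfw z (hRA z hzR), norm_mul, Real.mul_rpow (norm_nonneg _) (norm_nonneg _)]
    exact mul_le_mul_of_nonneg_right h3 (Real.rpow_nonneg (norm_nonneg _) _)
  · rw [hmp] at hΓ
    have h1 : π * Γ ≤ π * (2 * Real.exp 1 * M ^ 2 * lam * (E * ∫ u in Rp ε, ‖g u‖ ^ p)) :=
      mul_le_mul_of_nonneg_left hΓ Real.pi_pos.le
    refine h1.trans ?_
    have h2 : π * (2 * Real.exp 1 * M ^ 2 * lam * (E * ∫ u in Rp ε, ‖g u‖ ^ p))
        = (π * (2 * Real.exp 1 * M ^ 2) * E) * (lam * ∫ u in Rp ε, ‖g u‖ ^ p) := by ring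
    rw [h2]
    exact mul_le_of_le_one_left (mul_nonneg hl0 hI0) hnum1

end Pool.Agent.KS6_44.KB.N
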