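import Pool.Agent.KS6_44.KB.BlaN

/-!
Holomorphic logarithms in the disc and a Harnack inequality for functions whose imaginary part is
bounded in an annulus.
-/

set_option autoImplicit false

namespace Pool.Agent.KS6_44.KB.N

open Complex Metric Set Pool.Agent.KS6_44.KB.Y922
open scoped Real ComplexConjugate Topology

theorem exists_log {Q : ℂ → ℂ} (hQ : DifferentiableOn ℂ Q (ball 0 1))
    (h0 : ∀ z ∈ ball (0 : ℂ) 1, Q z ≠ 0) :
    ∃ h : ℂ → ℂ, DifferentiableOn ℂ h (ball 0 1) ∧ ∀ z ∈ ball (0 : ℂ) 1, Complex.exp (h z) = Q z := by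
  have hd : DifferentiableOn ℂ (fun z => deriv Q z / Q z) (ball 0 1) :=
    (hQ.deriv isOpen_ball).div hQ h0
  obtain ⟨g, hg⟩ := hd.isExactOn_ball
  have hQd : ∀ z ∈ ball (0 : ℂ) 1, HasDerivAt Q (deriv Q z) z := fun z hz =>
    (hQ.differentiableAt (isOpen_ball.mem_nhds hz)).hasDerivAt
  set R : ℂ → ℂ := fun z => Q z * Complex.exp (-g z) with hR
  have hRd : ∀ z ∈ ball (0 : ℂ) 1, HasDerivAt R 0 z := by
    intro z hz
    have h1 : HasDerivAt R
        (deriv Q z * Complex.exp (-g z) + Q z * (Complex.exp (-g z) * -(deriv Q z / Q z))) z :=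
      (hQd z hz).mul ((hg z hz).neg.cexp)
    have h2 : deriv Q z * Complex.exp (-g z) + Q z * (Complex.exp (-g z) * -(deriv Q z / Q z)) = 0 := by
      have := h0 z hz
      field_simp
      ring
    rw [h2] at h1
    exact h1
  have hc : ∀ z ∈ ball (0 : ℂ) 1, R z = R 0 := by
    intro z hz
    refine isOpen_ball.is_const_of_deriv_eq_zero (convex_ball (0 : ℂ) 1).isPreconnected
      (fun x hx => (hRd x hx).differentiableAt.differentiableWithinAt) (fun x hx => ?_) hz
      (mem_ball_self one_pos)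
    exact (hRd x hx).deriv
  have hR0 : R 0 ≠ 0 := mul_ne_zero (h0 0 (mem_ball_self one_pos)) (Complex.exp_ne_zero _)
  refine ⟨fun z => g z + Complex.log (R 0), ?_, fun z hz => ?_⟩
  · exact (fun x hx => ((hg x hx).differentiableAt.add_const _).differentiableWithinAt)
  · simp only
    rw [Complex.exp_add, Complex.exp_log hR0, ← hc z hz, hR]
    simp only
    rw [mul_comm, mul_assoc, ← Complex.exp_add, neg_add_cancel, Complex.exp_zero, mul_one]

/-- Maximum principle on the closed disc. -/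
theorem maxp (r B : ℝ) (hr : 0 < r) (hr1 : r < 1) (F : ℂ → ℂ)
    (hF : DifferentiableOn ℂ F (ball 0 1)) (hB : ∀ z : ℂ, ‖z‖ = r → ‖F z‖ ≤ B) :
    ∀ z : ℂ, ‖z‖ ≤ r → ‖F z‖ ≤ B := by
  intro z hz
  have hd : DiffContOnCl ℂ F (ball 0 r) :=
    hF.diffContOnCl_ball (closedBall_subset_ball hr1)
  refine Complex.norm_le_of_forall_mem_frontier_norm_le isBounded_ball hd ?_ ?_
  · intro x hx
    rw [frontier_ball (0 : ℂ) hr.ne', mem_sphere_zero_iff_norm] at hx
    exact hB x hx
  · rw [closure_ball (0 : ℂ) hr.ne', mem_closedBall_zero_iff]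
    exact hz

/-- A bound for the imaginary part in the annulus holds in the disc. -/
theorem im_bound {ε A : ℝ} (hε : 0 < ε) (hε2 : ε ≤ 1 / 2) {h : ℂ → ℂ}
    (hh : DifferentiableOn ℂ h (ball 0 1)) (hA : ∀ z ∈ Ann ε, |(h z).im| ≤ A) :
    ∀ z ∈ ball (0 : ℂ) 1, |(h z).im| ≤ A := by
  have key : ∀ σ : ℝ, (∀ z ∈ Ann ε, σ * (h z).im ≤ A) → ∀ z ∈ ball (0 : ℂ) 1, σ * (h z).im ≤ A := by
    intro σ hσ z hz
    rw [mem_ball_zero_iff] at hz
    have hn : ∀ u : ℂ, ‖Complex.exp (-(σ : ℂ) * Complex.I * h u)‖ = Real.exp (σ * (h u).im) := by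
      intro u
      rw [Complex.norm_exp]
      congr 1
      simp [Complex.mul_re, Complex.mul_im]
    have h1 := maxp (max ‖z‖ (1 - ε / 2)) (Real.exp A) (lt_max_of_lt_right (by linarith))
      (max_lt hz (by linarith)) (fun u => Complex.exp (-(σ : ℂ) * Complex.I * h u))
      ((hh.const_mul _).cexp) (fun u hu => by
        rw [hn u]
        apply Real.exp_le_exp.2
        apply hσ u
        refine ⟨?_, ?_⟩
        · rw [hu]; exact lt_max_of_lt_right (by linarith)
        · rw [hu]; exact max_lt hz (by linarith)) z (le_max_left _ _)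
    rw [hn z] at h1
    exact Real.exp_le_exp.1 h1
  intro z hz
  rw [abs_le]
  have h1 := key 1 (fun u hu => by rw [one_mul]; exact (abs_le.1 (hA u hu)).2) z hz
  have h2 := key (-1) (fun u hu => by have := (abs_le.1 (hA u hu)).1; linarith) z hz
  constructor <;> linarith

/-- Harnack's inequality. -/
theorem harnack {ε A B : ℝ} (hε : 0 < ε) (hε2 : ε ≤ 1 / 2) (hB : 0 < B)
    (hAB : A < B * (π / 2)) {h : ℂ → ℂ} (hh : DifferentiableOn ℂ h (ball 0 1))
    (hA : ∀ z ∈ ball (0 : ℂ) 1, |(h z).im| ≤ A) (z : ℂ) (hz : ‖z‖ ≤ 1 - ε / 8) :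
    |(h z).re - (h 0).re| ≤ B * Real.log (16 / ε) := by
  set G : ℂ → ℂ := fun u => Complex.exp (((1 / B : ℝ) : ℂ) * h u) with hG
  have hGd : DifferentiableOn ℂ G (ball 0 1) := (hh.const_mul _).cexp
  have hGn : ∀ u, ‖G u‖ = Real.exp ((h u).re / B) := by
    intro u
    rw [hG, Complex.norm_exp, Complex.re_ofReal_mul]
    congr 1
    ring
  have hGre : ∀ u ∈ ball (0 : ℂ) 1, 0 < (G u).re := by
    intro u hu
    rw [hG, Complex.exp_re, Complex.re_ofReal_mul, Complex.im_ofReal_mul]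
    apply mul_pos (Real.exp_pos _)
    apply Real.cos_pos_of_mem_Ioo
    have h1 := abs_le.1 (hA u hu)
    have h2 : A / B < π / 2 := by rw [div_lt_iff₀ hB]; linarith
    constructor
    · have : -(A / B) ≤ 1 / B * (h u).im := by
        rw [neg_le, ← mul_neg, one_div, inv_mul_eq_div]
        gcongr
        linarith
      linarith
    · have : 1 / B * (h u).im ≤ A / B := by
        rw [one_div, inv_mul_eq_div]
        gcongr
        exact h1.2
      linarith
  have h0b : (0 : ℂ) ∈ ball (0 : ℂ) 1 := mem_ball_self one_pos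
  have hzb : z ∈ ball (0 : ℂ) 1 := by rw [mem_ball_zero_iff]; linarith
  have hden : ∀ u ∈ ball (0 : ℂ) 1, G u + conj (G 0) ≠ 0 := by
    intro u hu h1
    have h2 := hGre u hu
    have h3 := hGre 0 h0b
    have h4 : (G u + conj (G 0)).re = 0 := by rw [h1]; rfl
    rw [Complex.add_re, Complex.conj_re] at h4
    linarith
  have hpsi : ∀ u ∈ ball (0 : ℂ) 1, ‖(G u - G 0) / (G u + conj (G 0))‖ ≤ 1 := by
    intro u hu
    rw [norm_div]
    apply div_le_one_of_le₀ _ (norm_nonneg _)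
    apply le_of_sq (norm_nonneg _)
    rw [← Complex.normSq_eq_norm_sq, ← Complex.normSq_eq_norm_sq, Complex.normSq_apply,
      Complex.normSq_apply]
    simp only [Complex.sub_re, Complex.sub_im, Complex.add_re, Complex.add_im, Complex.conj_re,
      Complex.conj_im]
    have h2 := hGre u hu
    have h3 := hGre 0 h0b
    nlinarith [mul_pos h2 h3]
  have hS : ‖(G z - G 0) / (G z + conj (G 0))‖ ≤ ‖z‖ := by
    have hd : DifferentiableOn ℂ (fun u => (G u - G 0) / (G u + conj (G 0))) (ball 0 1) :=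
      (hGd.sub_const _).div (hGd.add_const _) hden
    have := Complex.norm_le_norm_of_mapsTo_ball (R := 1) hd
      (fun u hu => by rw [mem_closedBall_zero_iff]; exact hpsi u hu) (by simp)
      (by rw [mem_ball_zero_iff] at hzb; exact hzb)
    exact this
  have hz0 : 0 ≤ ‖z‖ := norm_nonneg z
  have h1 : ‖G z - G 0‖ ≤ ‖z‖ * (‖G z‖ + ‖G 0‖) := by
    rw [norm_div, div_le_iff₀ (norm_pos_iff.2 (hden z hzb))] at hS
    refine hS.trans (mul_le_mul_of_nonneg_left ?_ hz0)
    refine (norm_add_le _ _).trans (le_of_eq ?_)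
    rw [Complex.norm_conj]
  have h2 : ‖G z‖ - ‖G 0‖ ≤ ‖G z - G 0‖ := norm_sub_norm_le _ _
  have h3 : ‖G 0‖ - ‖G z‖ ≤ ‖G z - G 0‖ := by
    rw [norm_sub_rev]; exact norm_sub_norm_le _ _
  have hz8 : ε / 8 ≤ 1 - ‖z‖ := by linarith
  have hGz : 0 < ‖G z‖ := by rw [hGn]; exact Real.exp_pos _
  have hG0 : 0 < ‖G 0‖ := by rw [hGn]; exact Real.exp_pos _
  have h4 : ‖G z‖ * (ε / 8) ≤ ‖G 0‖ * 2 := by nlinarith
  have h5 : ‖G 0‖ * (ε / 8) ≤ ‖G z‖ * 2 := by nlinarith
  have hlog : ∀ a b : ℝ, Real.exp (a / B) * (ε / 8) ≤ Real.exp (b / B) * 2 →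
      a - b ≤ B * Real.log (16 / ε) := by
    intro a b hab
    have e1 : Real.exp (a / B - b / B) ≤ 16 / ε := by
      rw [Real.exp_sub, div_le_div_iff₀ (Real.exp_pos _) hε]
      linarith
    have e2 : a / B - b / B ≤ Real.log (16 / ε) := by
      rw [Real.le_log_iff_exp_le (by positivity)]
      exact e1
    have e3 : a - b = B * (a / B - b / B) := by field_simp
    rw [e3]
    exact mul_le_mul_of_nonneg_left e2 hB.le
  rw [hGn, hGn] at h4 h5
  rw [abs_le]
  have h6 := hlog _ _ h4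
  have h7 := hlog _ _ h5
  constructor <;> linarith

end Pool.Agent.KS6_44.KB.N
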