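import Pool.Agent.KS6_44.KB.Y922Stm2

/-!
# KB-LG: the auxiliary function

Owner helper383 (for helper922).
-/

set_option autoImplicit false

namespace Pool.Agent.KS6_44.KB.Y383

open Complex Metric MeasureTheory Set
open Pool.Agent.KS6_44.KB.Y922

theorem t_LG : S_LG := by
  intro c p hc0 hc1 hp
  have hp0 : p ≠ 0 := by linarith
  have hre : ∀ z ∈ ball (0 : ℂ) 1, 0 < (1 - (c : ℂ) * z).re := by
    intro z hz
    rw [mem_ball_zero_iff] at hz
    have h1 : ((c : ℂ) * z).re ≤ ‖(c : ℂ) * z‖ := Complex.re_le_norm _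
    have h2 : ‖(c : ℂ) * z‖ = c * ‖z‖ := by
      rw [norm_mul, Complex.norm_real, Real.norm_of_nonneg hc0.le]
    have h3 : c * ‖z‖ < 1 := by
      nlinarith [norm_nonneg z]
    rw [Complex.sub_re, Complex.one_re]
    linarith
  refine ⟨fun z => Complex.exp (-((1 - 2 / p : ℝ) : ℂ) * Complex.log (1 - (c : ℂ) * z)), ?_, ?_⟩
  · intro z hz
    apply DifferentiableAt.differentiableWithinAt
    have h1 : DifferentiableAt ℂ (fun z : ℂ => Complex.log (1 - (c : ℂ) * z)) z := by
      apply DifferentiableAt.clog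
      · fun_prop
      · exact Or.inl (hre z hz)
    fun_prop
  · intro z hz
    have hne : (1 - (c : ℂ) * z) ≠ 0 := by
      intro h
      have := hre z hz
      rw [h] at this
      simp at this
    have hpos : 0 < ‖1 - (c : ℂ) * z‖ := norm_pos_iff.mpr hne
    have h1 : ‖Complex.exp (-((1 - 2 / p : ℝ) : ℂ) * Complex.log (1 - (c : ℂ) * z))‖ =
        Real.exp (-(1 - 2 / p) * Real.log ‖1 - (c : ℂ) * z‖) := by
      rw [Complex.norm_exp, ← Complex.ofReal_neg, Complex.re_ofReal_mul, Complex.log_re]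
    simp only
    rw [h1, ← Real.exp_mul, Real.rpow_def_of_pos hpos, ← Real.exp_add]
    have h2 : -(1 - 2 / p) * Real.log ‖1 - (c : ℂ) * z‖ * p +
        Real.log ‖1 - (c : ℂ) * z‖ * (p - 2) = 0 := by
      field_simp
      ring
    rw [h2, Real.exp_zero]

end Pool.Agent.KS6_44.KB.Y383
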