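import Pool.Agent.KS6_44.KB.FinN
import Pool.Agent.KS6_44.KB.Y383LG
import Pool.Agent.KS6_44.KB.Y436Lint
import Pool.Agent.KS6_44.KB.Y487LFin
import Pool.Agent.KS6_44.KB.Y975Lpt

/-!
The rate of convergence of the constants.
-/

set_option autoImplicit false

namespace Pool.Agent.KS6_44.KB.N

open Complex Metric MeasureTheory Set Filter Pool.Agent.KS6_44.KB.Y922
open scoped Real Topology

theorem adm_nonneg (p : ℝ) : 0 ≤ sSup (Adm p) := Real.sSup_nonneg fun _ h => h.1

theorem adm_bdd (p : ℝ) : BddAbove (Adm p) := ⟨1, fun _ h => h.2.1.le⟩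

theorem adm_of {ε p : ℝ} (hε : 0 < ε) (hε2 : ε ≤ 1 / 2)
    (hp : 10000 * Real.log (1 / ε) / ε ^ 2 ≤ p) : 1 - ε ∈ Adm p :=
  ⟨by linarith, by linarith, fun _ _ hf hg hfg =>
    conc hε hε2 hp hf hg fun z hz => hfg z hz.1 hz.2⟩

theorem lower (p : ℝ) (hp : 2 ≤ p) : 1 - 200 * Real.sqrt (Real.log p / p) ≤ sSup (Adm p) := by
  have hp0 : 0 < p := by linarith
  have hlog2 : Real.log 2 ≤ Real.log p := Real.log_le_log (by norm_num) hp
  have h2 := Real.log_two_gt_d9
  have hlp : 0 < Real.log p := by linarith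
  set q : ℝ := Real.sqrt (Real.log p / p) with hq
  have hq0 : 0 < q := Real.sqrt_pos.2 (by positivity)
  have hqq : q ^ 2 = Real.log p / p := Real.sq_sqrt (by positivity)
  have hqp : q ^ 2 * p = Real.log p := by rw [hqq]; field_simp
  by_cases h1 : 1 ≤ 200 * q
  · exact (by linarith : 1 - 200 * q ≤ 0).trans (adm_nonneg p)
  push Not at h1
  set ε : ℝ := min (1 / 2) (200 * q) with hε
  have hε0 : 0 < ε := lt_min (by norm_num) (by positivity)
  have hε1 : ε ≤ 1 / 2 := min_le_left _ _
  have hε2 : ε ≤ 200 * q := min_le_right _ _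
  have hε3 : 10000 * Real.log (1 / ε) / ε ^ 2 ≤ p := by
    rw [div_le_iff₀ (by positivity)]
    rcases min_choice (1 / 2 : ℝ) (200 * q) with h3 | h3
    · rw [hε, h3]
      norm_num
      have h4 : (200 * q) ^ 2 < 1 := pow_lt_one₀ (by positivity) h1 (by norm_num)
      have h5 : (200 * q) ^ 2 * p < 1 * p := mul_lt_mul_of_pos_right h4 hp0
      have h6 : (200 * q) ^ 2 * p = 40000 * Real.log p := by
        rw [mul_pow, mul_assoc, hqp]; norm_num
      rw [h6, one_mul] at h5
      linarith
    · rw [hε, h3]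
      have h6 : p * (200 * q) ^ 2 = 40000 * Real.log p := by
        rw [mul_pow, mul_comm, mul_assoc, hqp]; norm_num
      rw [h6]
      have h7 : Real.log (1 / (200 * q)) ≤ Real.log p := by
        apply Real.log_le_log (by positivity)
        rw [div_le_iff₀ (by positivity)]
        have h8 : 1 ≤ p * q := by
          by_contra hcon
          push Not at hcon
          have h9 : (p * q) ^ 2 < 1 := pow_lt_one₀ (by positivity) hcon (by norm_num)
          have h10 : (p * q) ^ 2 = p * Real.log p := by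
            rw [mul_pow, ← hqp]; ring
          rw [h10] at h9
          nlinarith
        linarith
      linarith
  exact (by linarith : 1 - 200 * q ≤ 1 - ε).trans (le_csSup (adm_bdd p) (adm_of hε0 hε1 hε3))

theorem upper (p : ℝ) (hp : 16 ≤ p) : sSup (Adm p) ≤ 1 - (1 / 8) * p ^ (-(1 / 2) : ℝ) := by
  have hp0 : 0 < p := by linarith
  set q : ℝ := p ^ (-(1 / 2) : ℝ) with hq
  have hq0 : 0 < q := Real.rpow_pos_of_pos hp0 _
  have hq2 : p * q ^ 2 = 1 := by
    rw [hq, ← Real.rpow_natCast, ← Real.rpow_mul hp0.le]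
    norm_num
    rw [Real.rpow_neg_one, mul_inv_cancel₀ hp0.ne']
  have hq4 : q ≤ 1 / 4 := by
    by_contra hcon
    push Not at hcon
    have : 1 < p * q ^ 2 := by nlinarith
    linarith
  refine Real.sSup_le (fun r hr => ?_) (by linarith)
  exact Y487.t_LFIN Y436.t_LINT Y975.t_LPT Y383.t_LG (1 / 8 * q) p (by linarith) (by linarith)
    (by linarith) (by nlinarith) r hr

/-- The exponent. -/
theorem exponent : Tendsto (fun p : ℝ => Real.log (1 - sSup (Adm p)) / Real.log p) atTop
    (𝓝 (-(1 / 2))) := by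
  have hl : Tendsto Real.log atTop atTop := Real.tendsto_log_atTop
  have hll : Tendsto (fun p : ℝ => Real.log (Real.log p) / Real.log p) atTop (𝓝 0) :=
    (Real.isLittleO_log_id_atTop.tendsto_div_nhds_zero).comp hl
  have hinv : Tendsto (fun p : ℝ => (Real.log p)⁻¹) atTop (𝓝 0) := tendsto_inv_atTop_zero.comp hl
  have hlow : Tendsto (fun p : ℝ => -(1 / 2) - Real.log 8 * (Real.log p)⁻¹) atTop
      (𝓝 (-(1 / 2))) := by
    have := (tendsto_const_nhds (x := (-(1 / 2) : ℝ)) (f := atTop)).sub (hinv.const_mul (Real.log 8))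
    simpa using this
  have hup : Tendsto (fun p : ℝ => -(1 / 2) + (Real.log 200 * (Real.log p)⁻¹ +
      1 / 2 * (Real.log (Real.log p) / Real.log p))) atTop (𝓝 (-(1 / 2))) := by
    have := (tendsto_const_nhds (x := (-(1 / 2) : ℝ)) (f := atTop)).add
      ((hinv.const_mul (Real.log 200)).add (hll.const_mul (1 / 2)))
    simpa using this
  refine tendsto_of_tendsto_of_tendsto_of_le_of_le' hlow hup ?_ ?_
  · filter_upwards [eventually_ge_atTop 16] with p hp
    have hp0 : 0 < p := by linarith
    have hlp : 0 < Real.log p := Real.log_pos (by linarith)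
    have h1 := upper p hp
    have h2 : 0 < p ^ (-(1 / 2) : ℝ) := Real.rpow_pos_of_pos hp0 _
    have h3 : Real.log ((1 / 8) * p ^ (-(1 / 2) : ℝ)) ≤ Real.log (1 - sSup (Adm p)) :=
      Real.log_le_log (by positivity) (by linarith)
    have h4 : Real.log ((1 / 8) * p ^ (-(1 / 2) : ℝ)) = -Real.log 8 - 1 / 2 * Real.log p := by
      rw [Real.log_mul (by norm_num) h2.ne', Real.log_rpow hp0, one_div, Real.log_inv]
      ring
    rw [le_div_iff₀ hlp]
    rw [h4] at h3
    refine le_trans (le_of_eq ?_) h3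
    field_simp
    ring
  · filter_upwards [eventually_ge_atTop 16] with p hp
    have hp0 : 0 < p := by linarith
    have hlp : 0 < Real.log p := Real.log_pos (by linarith)
    have h1 := upper p hp
    have h2 : 0 < p ^ (-(1 / 2) : ℝ) := Real.rpow_pos_of_pos hp0 _
    have h3 := lower p (by linarith)
    have hs : 0 < Real.log p / p := by positivity
    have h4 : Real.log (1 - sSup (Adm p)) ≤ Real.log (200 * Real.sqrt (Real.log p / p)) :=
      Real.log_le_log (by linarith) (by linarith)
    have h5 : Real.log (200 * Real.sqrt (Real.log p / p)) =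
        Real.log 200 + 1 / 2 * (Real.log (Real.log p) - Real.log p) := by
      rw [Real.log_mul (by norm_num) (Real.sqrt_pos.2 hs).ne', Real.log_sqrt hs.le,
        Real.log_div hlp.ne' hp0.ne']
      ring
    rw [div_le_iff₀ hlp]
    rw [h5] at h4
    refine h4.trans (le_of_eq ?_)
    field_simp
    ring

end Pool.Agent.KS6_44.KB.N
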