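import Mathlib

set_option autoImplicit false
open MeasureTheory Metric Set Filter Topology

namespace Pool.Agent.KS6_44.KB.Split938

/-- regularised Cauchy kernel `π⁻¹ w̄/(|w|²+δ²)` -/
noncomputable def ck (δ : ℝ) (w : ℂ) : ℂ :=
  (Real.pi : ℂ)⁻¹ * ((starRingEnd ℂ) w / ((‖w‖ ^ 2 + δ ^ 2 : ℝ) : ℂ))

/-- regularised Beurling kernel `-π⁻¹ w̄²/(|w|²+δ²)²` (the `∂`-derivative of `ck δ`) -/
noncomputable def bk (δ : ℝ) (w : ℂ) : ℂ :=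
  -((Real.pi : ℂ)⁻¹ * (((starRingEnd ℂ) w) ^ 2 / (((‖w‖ ^ 2 + δ ^ 2) ^ 2 : ℝ) : ℂ)))

/-- the `∂̄`-derivative of `ck δ`: `π⁻¹ δ²/(|w|²+δ²)²`, nonnegative with integral one -/
noncomputable def pk (δ : ℝ) (w : ℂ) : ℂ :=
  ((Real.pi⁻¹ * (δ ^ 2 / (‖w‖ ^ 2 + δ ^ 2) ^ 2) : ℝ) : ℂ)

noncomputable def Ck (δ : ℝ) (E : ℂ → ℂ) (z : ℂ) : ℂ := ∫ ζ : ℂ, ck δ (z - ζ) * E ζ
noncomputable def Bk (δ : ℝ) (E : ℂ → ℂ) (z : ℂ) : ℂ := ∫ ζ : ℂ, bk δ (z - ζ) * E ζ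
noncomputable def Pk (δ : ℝ) (E : ℂ → ℂ) (z : ℂ) : ℂ := ∫ ζ : ℂ, pk δ (z - ζ) * E ζ

/-- Cauchy transform -/
noncomputable def C0 (E : ℂ → ℂ) (z : ℂ) : ℂ := (Real.pi : ℂ)⁻¹ * ∫ ζ : ℂ, (z - ζ)⁻¹ * E ζ

/-- `∂̄h` for real-differentiable `h` -/
noncomputable def dbar (h : ℂ → ℂ) (z : ℂ) : ℂ :=
  (fderiv ℝ h z 1 + Complex.I * fderiv ℝ h z Complex.I) / 2
/-- `∂h` for real-differentiable `h` -/
noncomputable def dz (h : ℂ → ℂ) (z : ℂ) : ℂ :=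
  (fderiv ℝ h z 1 - Complex.I * fderiv ℝ h z Complex.I) / 2

/-- average over the disc of radius `r` -/
noncomputable def Mr (r : ℝ) (γ : ℂ → ℂ) (z : ℂ) : ℂ :=
  ((Real.pi * r ^ 2 : ℝ) : ℂ)⁻¹ * ∫ ζ in ball z r, γ ζ

noncomputable def Hd (k m : ℂ → ℂ) (δ : ℝ) (E₀ E₁ : ℂ → ℂ) (z : ℂ) : ℂ :=
  k z * (Ck δ E₀ z - Bk δ E₁ z) - Ck δ (fun ζ => k ζ * E₀ ζ + m ζ * E₁ ζ) z
    + Bk δ (fun ζ => k ζ * E₁ ζ) z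

/-- half-open square with lower left corner `a` and side `s` -/
def sq (a : ℂ) (s : ℝ) : Set ℂ :=
  {z | a.re ≤ z.re ∧ z.re < a.re + s ∧ a.im ≤ z.im ∧ z.im < a.im + s}

/-- `E` is constant on each of the `4^n` dyadic subsquares of generation `n` of `sq a s` -/
def StepOn (E : ℂ → ℂ) : ℕ → ℂ → ℝ → Prop
  | 0, a, s => ∃ c : ℂ, ∀ z ∈ sq a s, E z = c
  | (n + 1), a, s => StepOn E n a (s / 2) ∧ StepOn E n (a + ((s / 2 : ℝ) : ℂ)) (s / 2) ∧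
      StepOn E n (a + ((s / 2 : ℝ) : ℂ) * Complex.I) (s / 2) ∧
      StepOn E n (a + ((s / 2 : ℝ) : ℂ) + ((s / 2 : ℝ) : ℂ) * Complex.I) (s / 2)

/-- `u`, `v` are continuous and `∂̄u = w`, `∂u = v` weakly off `F` -/
def WSol (F : Set ℂ) (w u v : ℂ → ℂ) : Prop :=
  Continuous u ∧ Continuous v ∧ ∀ P : ℂ → ℂ, ContDiff ℝ 2 P → HasCompactSupport P →
    Disjoint (tsupport P) F →
    (∫ z, u z * dbar P z = -∫ z, w z * P z) ∧ (∫ z, u z * dz P z = -∫ z, v z * P z)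

end Pool.Agent.KS6_44.KB.Split938
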